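import Pool.Agent.Lib.MP_a83deb_pr.Shape

/-!
# Localisation of directions of curvature near the coordinate directions
-/

set_option autoImplicit false

open Metric Filter Topology

namespace Pool.Agent.Lib.MP_a83deb_pr

variable {d : ℕ}

theorem abs_sp (ε : Fin d → ℤˣ) (π : Equiv.Perm (Fin d)) (x : EuclideanSpace ℝ (Fin d)) (i : Fin d) :
    |sp ε π x i| = |x (π i)| := by
  rw [sp_apply, abs_mul]
  rcases unit_cases (ε i) with h | h <;> simp [h]

theorem norm_sp (ε : Fin d → ℤˣ) (π : Equiv.Perm (Fin d)) (x : EuclideanSpace ℝ (Fin d)) :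
    ‖sp ε π x‖ = ‖x‖ := by
  rw [EuclideanSpace.norm_eq, EuclideanSpace.norm_eq]
  congr 1
  simp only [Real.norm_eq_abs, abs_sp]
  exact Equiv.sum_comp π fun i => |x i| ^ 2

theorem l1_sp (ε : Fin d → ℤˣ) (π : Equiv.Perm (Fin d)) (x : EuclideanSpace ℝ (Fin d)) :
    l1 (sp ε π x) = l1 x := by
  unfold l1
  simp only [abs_sp]
  exact Equiv.sum_comp π fun i => |x i|

/-- a unit vector with small `ℓ¹` norm is close to a coordinate direction -/
theorem close {u : EuclideanSpace ℝ (Fin d)} {j : Fin d} {η : ℝ} (hu : ‖u‖ = 1)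
    (hmax : ∀ i, |u i| ≤ u j) (hl : l1 u ≤ 1 + η) :
    ‖u - EuclideanSpace.single j (1 : ℝ)‖ ≤ 2 * η := by
  have hc0 : 0 ≤ u j := (abs_nonneg _).trans (hmax j)
  have hη : 0 ≤ η := by
    have := norm_le_l1 u
    linarith
  have hsq : ∑ i, u i ^ 2 = 1 := by
    have h1 := EuclideanSpace.norm_eq u
    rw [hu] at h1
    have h2 : ∑ i, ‖u i‖ ^ 2 = 1 := by
      have h3 := congrArg (fun t : ℝ => t ^ 2) h1
      simp only at h3
      rw [Real.sq_sqrt (Finset.sum_nonneg fun i _ => sq_nonneg _)] at h3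
      linarith
    simpa [Real.norm_eq_abs, sq_abs] using h2
  have hc1 : 1 ≤ u j * (1 + η) := by
    have h1 : ∑ i, u i ^ 2 ≤ ∑ i, u j * |u i| := by
      refine Finset.sum_le_sum fun i _ => ?_
      rw [← sq_abs, sq]
      exact mul_le_mul_of_nonneg_right (hmax i) (abs_nonneg _)
    rw [hsq, ← Finset.mul_sum] at h1
    exact h1.trans (mul_le_mul_of_nonneg_left hl hc0)
  have hsplit1 : l1 u = u j + ∑ i ∈ Finset.univ.erase j, |u i| := by
    unfold l1
    rw [← Finset.add_sum_erase Finset.univ (fun i => |u i|) (Finset.mem_univ j), abs_of_nonneg hc0]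
  have hsplit2 : u j ^ 2 + ∑ i ∈ Finset.univ.erase j, u i ^ 2 = 1 := by
    rw [Finset.add_sum_erase Finset.univ (fun i => u i ^ 2) (Finset.mem_univ j), hsq]
  set S := ∑ i ∈ Finset.univ.erase j, |u i| with hS
  have hS0 : 0 ≤ S := Finset.sum_nonneg fun _ _ => abs_nonneg _
  have hSS : ∑ i ∈ Finset.univ.erase j, u i ^ 2 ≤ S ^ 2 := by
    have h : ∀ i ∈ Finset.univ.erase j, u i ^ 2 ≤ |u i| * S := by
      intro i hi
      rw [← sq_abs, sq]
      exact mul_le_mul_of_nonneg_left
        (Finset.single_le_sum (f := fun k => |u k|) (fun k _ => abs_nonneg _) hi) (abs_nonneg _)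
    calc _ ≤ ∑ i ∈ Finset.univ.erase j, |u i| * S := Finset.sum_le_sum h
      _ = S ^ 2 := by rw [← Finset.sum_mul, sq]
  have hcle : u j ≤ 1 := by
    have : 0 ≤ ∑ i ∈ Finset.univ.erase j, u i ^ 2 := Finset.sum_nonneg fun _ _ => sq_nonneg _
    nlinarith
  set e := 1 - u j with he
  have he0 : 0 ≤ e := by linarith
  have huj : u j = 1 - e := by linarith
  have hSle : S ≤ η + e := by linarith
  have h2e : 2 * e * (1 - e - η) ≤ η ^ 2 := by
    have h1 : 1 - (1 - e) ^ 2 ≤ (η + e) ^ 2 := by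
      have h2 : S ^ 2 ≤ (η + e) ^ 2 := by gcongr
      rw [huj] at hsplit2
      linarith
    nlinarith
  have he1 : e * (1 + η) ≤ η := by
    rw [huj] at hc1
    linarith
  have hfin : 2 * e ≤ 4 * η ^ 2 := by
    rcases le_or_gt η (2 / 5) with h | h
    · have h1 : e ≤ 2 / 7 := by
        by_contra hcon
        push Not at hcon
        nlinarith
      have h2 : 2 * e * (11 / 35) ≤ 2 * e * (1 - e - η) :=
        mul_le_mul_of_nonneg_left (by linarith) (by linarith)
      nlinarith [sq_nonneg η]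
    · have h1 : 2 * e * (1 + η) ≤ 4 * η ^ 2 * (1 + η) := by nlinarith
      exact le_of_mul_le_mul_right h1 (by linarith)
  have hdist : ‖u - EuclideanSpace.single j (1 : ℝ)‖ ^ 2 = 2 * e := by
    rw [norm_sub_sq_real, hu]
    have h1 : ‖EuclideanSpace.single j (1 : ℝ)‖ = 1 := by simp
    have h2 : inner ℝ u (EuclideanSpace.single j (1 : ℝ)) = u j := by
      rw [EuclideanSpace.inner_single_right]
      simp
    rw [h1, h2, he]
    ring
  have h4 : ‖u - EuclideanSpace.single j (1 : ℝ)‖ ^ 2 ≤ (2 * η) ^ 2 := by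
    rw [hdist]
    linarith
  exact le_of_sq_le_sq h4 (by linarith)

end Pool.Agent.Lib.MP_a83deb_pr
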