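import Pool.Agent.Lib.MP_a83deb_pr.Local

/-!
# The convex hull of a compact set; extreme points are limits of points of curvature
-/

set_option autoImplicit false

open Metric Filter Topology

namespace Pool.Agent.Lib.MP_a83deb_pr

variable {d : ℕ}

theorem compact_hull {T : Set (EuclideanSpace ℝ (Fin d))} (hT : IsCompact T) :
    IsCompact (convexHull ℝ T) := by
  rcases T.eq_empty_or_nonempty with rfl | ⟨z0, hz0⟩
  · simp
  have hK : IsCompact (stdSimplex ℝ (Fin (d + 1)) ×ˢ
      (Set.univ.pi fun _ : Fin (d + 1) => T)) :=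
    (isCompact_stdSimplex ℝ (Fin (d + 1))).prod (isCompact_univ_pi fun _ => hT)
  have hf : Continuous fun p : (Fin (d + 1) → ℝ) × (Fin (d + 1) → EuclideanSpace ℝ (Fin d)) =>
      ∑ i, p.1 i • p.2 i := by fun_prop
  have himg := hK.image hf
  convert himg using 1
  ext x
  constructor
  · intro hx
    obtain ⟨ι, hι, z, w, hz, hai, hw, hw1, hx⟩ := eq_pos_convex_span_of_mem_convexHull hx
    have hcard : Fintype.card ι ≤ Fintype.card (Fin (d + 1)) := by
      rw [Fintype.card_fin]
      refine hai.card_le_finrank_succ.trans ?_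
      have := Submodule.finrank_le (vectorSpan ℝ (Set.range z))
      rw [finrank_euclideanSpace_fin] at this
      omega
    obtain ⟨e⟩ := Function.Embedding.nonempty_of_card_le hcard
    refine ⟨(Function.extend e w 0, Function.extend e z fun _ => z0), ⟨⟨?_, ?_⟩, ?_⟩, ?_⟩
    · intro i
      by_cases h : ∃ k, e k = i
      · obtain ⟨k, rfl⟩ := h
        simp only [e.injective.extend_apply]
        exact (hw k).le
      · simp only [Function.extend_apply' _ _ _ h]
        exact le_rfl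
    · show ∑ i, Function.extend e w 0 i = 1
      rw [← hw1]
      refine (Fintype.sum_of_injective e e.injective _ _ (fun i hi => ?_) (fun k => ?_)).symm
      · rw [Function.extend_apply' _ _ _ (by simpa using hi)]
        rfl
      · rw [e.injective.extend_apply]
    · intro i _
      show Function.extend e z (fun _ => z0) i ∈ T
      by_cases h : ∃ k, e k = i
      · obtain ⟨k, rfl⟩ := h
        rw [e.injective.extend_apply]
        exact hz ⟨k, rfl⟩
      · rw [Function.extend_apply' _ _ _ h]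
        exact hz0
    · show ∑ i, Function.extend e w 0 i • Function.extend e z (fun _ => z0) i = x
      rw [← hx]
      refine (Fintype.sum_of_injective e e.injective _ _ (fun i hi => ?_) (fun k => ?_)).symm
      · rw [Function.extend_apply' _ _ _ (by simpa using hi)]
        simp
      · rw [e.injective.extend_apply, e.injective.extend_apply]
  · rintro ⟨⟨w, z⟩, ⟨⟨hw0, hw1⟩, hz⟩, rfl⟩
    exact (convex_convexHull ℝ T).sum_mem (fun i _ => hw0 i) hw1
      (fun i _ => subset_convexHull ℝ T (hz i (Set.mem_univ i)))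

variable {M : EuclideanSpace ℝ (Fin d) → ℝ} {a b : ℝ}

theorem Nm.pts_subset (h : Nm M a b) : pts M ⊆ {x | M x ≤ 1} := by
  rintro z ⟨u, hu, rfl⟩
  exact (h.curv_M hu).le

theorem Nm.hull' (h : Nm M a b) (j : Fin d) :
    {x | M x ≤ 1} = convexHull ℝ (closure (pts M)) := by
  have hc : IsCompact (closure (pts M)) :=
    h.isCompact.of_isClosed_subset isClosed_closure (closure_minimal h.pts_subset h.isClosed)
  rw [h.hull j]
  refine Set.Subset.antisymm ?_ ?_
  · exact closure_minimal (convexHull_mono subset_closure) (compact_hull hc).isClosed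
  · exact convexHull_min (closure_mono (subset_convexHull ℝ _)) (convex_convexHull ℝ _).closure

theorem Nm.extreme_subset (h : Nm M a b) (j : Fin d) :
    Set.extremePoints ℝ {x | M x ≤ 1} ⊆ closure (pts M) := by
  rw [h.hull' j]
  exact extremePoints_convexHull_subset

/-- directions of extreme points are limits of directions of curvature -/
theorem Nm.extreme_dir (h : Nm M a b) {v : EuclideanSpace ℝ (Fin d)} (hv : ‖v‖ = 1)
    (hex : (M v)⁻¹ • v ∈ Set.extremePoints ℝ {x | M x ≤ 1}) : v ∈ closure {u | Curv M u} := by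
  have hv0 : v ≠ 0 := by
    intro h0
    rw [h0, norm_zero] at hv
    norm_num at hv
  obtain ⟨j, -⟩ : ∃ j : Fin d, True := by
    by_contra hcon
    push Not at hcon
    apply hv0
    ext i
    exact (hcon i).elim
  have hMv : 0 < M v := h.pos hv0
  obtain ⟨z, hz, hlim⟩ := mem_closure_iff_seq_limit.1 (h.extreme_subset j hex)
  refine mem_closure_iff_seq_limit.2 ⟨fun n => ‖z n‖⁻¹ • z n, fun n => ?_, ?_⟩
  · obtain ⟨u, hu, hzu⟩ := hz n
    have hMu : 0 < M u := h.pos hu.ne_zero
    have h1 : ‖z n‖ = (M u)⁻¹ := by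
      rw [hzu, norm_smul, hu.1, mul_one, Real.norm_eq_abs, abs_of_pos (inv_pos.2 hMu)]
    have h2 : ‖z n‖⁻¹ • z n = u := by
      rw [h1, hzu, smul_smul, inv_inv, mul_inv_cancel₀ hMu.ne', one_smul]
    show Curv M (‖z n‖⁻¹ • z n)
    rw [h2]
    exact hu
  · have hne : ‖(M v)⁻¹ • v‖ ≠ 0 := by
      rw [norm_smul, hv, mul_one, Real.norm_eq_abs, abs_of_pos (inv_pos.2 hMv)]
      exact (inv_pos.2 hMv).ne'
    have h1 := (hlim.norm.inv₀ hne).smul hlim
    have h2 : ‖(M v)⁻¹ • v‖⁻¹ • ((M v)⁻¹ • v) = v := by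
      rw [norm_smul, hv, mul_one, Real.norm_eq_abs, abs_of_pos (inv_pos.2 hMv), smul_smul, inv_inv,
        mul_inv_cancel₀ hMv.ne', one_smul]
    rwa [h2] at h1

/-- **localisation** -/
theorem Nm.local (h : Nm M a b) (hsp : ∀ ε π x, M (sp ε π x) = M x) (j : Fin d) :
    ∃ u, Curv M u ∧ (∀ x, M x ≤ 1 → ‖x‖ ≤ (M u)⁻¹) ∧ (∀ i, |u i| ≤ u j) ∧ l1 u ≤ b / a ∧
      ‖u - EuclideanSpace.single j (1 : ℝ)‖ ≤ 2 * (b / a - 1) := by
  obtain ⟨z, hz, hfar⟩ := h.exists_far 0
  obtain ⟨i0, hi0⟩ : ∃ i0, ∀ i, |z i| ≤ |z i0| := by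
    haveI : Nonempty (Fin d) := ⟨j⟩
    exact Finite.exists_max fun i => |z i|
  set ε : Fin d → ℤˣ := fun _ => if z i0 < 0 then -1 else 1 with hε
  set z' := sp ε (Equiv.swap j i0) z with hz'
  have hz'j : z' j = |z i0| := by
    rw [hz', sp_apply, Equiv.swap_apply_left]
    simp only [hε]
    split_ifs with h0
    · rw [abs_of_neg h0]
      push_cast
      ring
    · rw [abs_of_nonneg (not_lt.1 h0)]
      push_cast
      ring
  have hz'i : ∀ i, |z' i| ≤ z' j := by
    intro i
    rw [hz'j, hz', abs_sp]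
    exact hi0 _
  have hMz' : M z' ≤ 1 := by rw [hz', hsp]; exact hz
  have hnz' : ‖z'‖ = ‖z‖ := norm_sp _ _ _
  have hfar' : ∀ x, M x ≤ 1 → dist x 0 ≤ dist z' 0 := by
    intro x hx
    have := hfar x hx
    rw [dist_zero_right, dist_zero_right] at this ⊢
    rw [hnz']
    exact this
  obtain ⟨h1, h2, h3, -⟩ := h.far_curv j hMz' hfar'
  have hn : 0 < ‖z'‖ := norm_pos_iff.2 h2
  have hcoord : ∀ i, (‖z'‖⁻¹ • z') i = ‖z'‖⁻¹ * z' i := fun i => rfl
  have hmax : ∀ i, |(‖z'‖⁻¹ • z') i| ≤ (‖z'‖⁻¹ • z') j := by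
    intro i
    rw [hcoord, hcoord, abs_mul, abs_of_pos (inv_pos.2 hn)]
    exact mul_le_mul_of_nonneg_left (hz'i i) (inv_pos.2 hn).le
  have hl : l1 (‖z'‖⁻¹ • z') ≤ b / a := by
    rw [l1_smul, abs_of_pos (inv_pos.2 hn)]
    have h4 : b⁻¹ ≤ ‖z'‖ := by
      have h5 := hfar' _ (h.pt j).1
      rw [dist_zero_right, dist_zero_right, (h.pt j).2] at h5
      exact h5
    have h6 : a * l1 z' ≤ 1 := (h.ge z').trans h1.le
    have h7 : l1 z' ≤ 1 / a := by
      rw [le_div_iff₀ h.a0]
      linarith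
    have h8 : ‖z'‖⁻¹ ≤ b := by
      rw [inv_le_comm₀ hn h.b0]
      exact h4
    calc ‖z'‖⁻¹ * l1 z' ≤ b * (1 / a) := by
          have := l1_nonneg z'
          have := h.b0
          gcongr
      _ = b / a := by ring
  refine ⟨_, h3, fun x hx => ?_, hmax, hl, close h3.1 hmax (by linarith)⟩
  have h9 := hfar' x hx
  rw [dist_zero_right, dist_zero_right] at h9
  rw [h.smul _ (inv_pos.2 hn).le, h1, mul_one, inv_inv]
  exact h9

/-- every farthest point is in the caps around the coordinate directions -/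
theorem Nm.far_l1 (h : Nm M a b) (j : Fin d) {z : EuclideanSpace ℝ (Fin d)} (hz : M z ≤ 1)
    (hfar : ∀ x, M x ≤ 1 → ‖x‖ ≤ ‖z‖) : l1 z ≤ b / a * ‖z‖ := by
  have h5 := hfar _ (h.pt j).1
  rw [(h.pt j).2] at h5
  have h6 : a * l1 z ≤ 1 := (h.ge z).trans hz
  have h7 : l1 z ≤ 1 / a := by
    rw [le_div_iff₀ h.a0]
    linarith
  have h8 : 1 ≤ b * ‖z‖ := by
    have := mul_le_mul_of_nonneg_left h5 h.b0.le
    rwa [mul_inv_cancel₀ h.b0.ne'] at this
  calc l1 z ≤ 1 / a := h7
    _ ≤ (b * ‖z‖) / a := div_le_div_of_nonneg_right h8 h.a0.le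
    _ = b / a * ‖z‖ := by ring

end Pool.Agent.Lib.MP_a83deb_pr
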