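import Pool.Agent.Lib.MP_a83deb_pr.Final

/-!
# A quadratic lower bound near the axis and the value at the axis locate a direction of curvature
-/

set_option autoImplicit false

open Metric Filter Topology

namespace Pool.Agent.Lib.MP_a83deb_pr

/-- Let `μ (1, q v) ≥ 1 + q (1 + v²) / 2` for `|v| ≤ 1` and `μ (e₁) ≤ 1 + q / 2 + C q²`.  Then, for small `q`, there
is a direction of curvature `u` with `‖u - e₁‖² ≤ 3 C q³`, the direction of a farthest point. -/
theorem Nm.cap {M : EuclideanSpace ℝ (Fin 2) → ℝ} {b q C : ℝ} (h : Nm M 1 b)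
    (hsp : ∀ ε π x, M (sp ε π x) = M x) (hq : 0 < q) (hC : 0 ≤ C) (hqC : q * (C + 1) ≤ 1 / 8)
    (h1 : ∀ v : ℝ, |v| ≤ 1 → 1 + q * (1 + v ^ 2) / 2 ≤ M !₂[1, q * v])
    (h2 : M (EuclideanSpace.single 0 1) ≤ 1 + q / 2 + C * q ^ 2) :
    ∃ u, Curv M u ∧ (∀ x, M x ≤ 1 → ‖x‖ ≤ (M u)⁻¹) ∧ (∀ i, |u i| ≤ u 0) ∧
      ‖u - EuclideanSpace.single 0 (1 : ℝ)‖ ^ 2 ≤ 3 * C * q ^ 3 := by
  obtain ⟨u, hu, hball, hmax, hl1, -⟩ := (h.diamond hsp 0).local hsp 0
  refine ⟨u, hu, hball, hmax, ?_⟩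
  set e : EuclideanSpace ℝ (Fin 2) := EuclideanSpace.single 0 (1 : ℝ) with he
  have hMe : 0 < M e := h.pos (by simp [he])
  have hune : u ≠ 0 := by
    intro h0
    have := hu.1
    rw [h0, norm_zero] at this
    exact zero_ne_one this
  have hMu : 0 < M u := h.pos hune
  -- the value at `u`
  have hMue : M u ≤ M e := by
    have h3 : M ((M e)⁻¹ • e) ≤ 1 := by
      rw [h.smul _ (inv_pos.2 hMe).le, inv_mul_cancel₀ hMe.ne']
    have h4 := hball _ h3
    rw [norm_smul, Real.norm_eq_abs, abs_of_pos (inv_pos.2 hMe)] at h4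
    have h5 : ‖e‖ = 1 := by simp [he]
    rw [h5, mul_one] at h4
    exact (inv_le_inv₀ hMe hMu).1 h4
  set c := u 0 with hc
  set s := u 1 with hs
  have hsc : |s| ≤ c := hmax 1
  have hc0 : 0 ≤ c := (abs_nonneg s).trans hsc
  have hsq : c ^ 2 + s ^ 2 = 1 := by
    have h3 := EuclideanSpace.norm_eq u
    rw [hu.1] at h3
    have h4 : ∑ i, ‖u i‖ ^ 2 = 1 := by
      have h5 := congrArg (fun t : ℝ => t ^ 2) h3
      simp only at h5
      rw [Real.sq_sqrt (Finset.sum_nonneg fun i _ => sq_nonneg _)] at h5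
      linarith
    simpa [Fin.sum_univ_two, Real.norm_eq_abs, sq_abs] using h4
  have hl : c + |s| ≤ 1 + q / 2 + C * q ^ 2 := by
    have h3 : l1 u = c + |s| := by
      unfold l1
      rw [Fin.sum_univ_two]
      show |c| + |s| = c + |s|
      rw [abs_of_nonneg hc0]
    rw [← h3]
    rw [div_one] at hl1
    exact hl1.trans h2
  have hq8 : q ≤ 1 / 8 := by nlinarith
  have hCq : C * q ≤ 1 / 8 := by nlinarith
  have hη : q / 2 + C * q ^ 2 ≤ 5 / 8 * q := by
    have h3 : C * q * q ≤ 1 / 8 * q := mul_le_mul_of_nonneg_right hCq hq.le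
    have h4 : C * q ^ 2 = C * q * q := by ring
    rw [h4]
    linarith
  have hss : |s| ^ 2 = s ^ 2 := sq_abs s
  have hs0 : 0 ≤ |s| := abs_nonneg s
  have hcs : c * |s| ≤ 13 / 20 * q := by
    have h3 : (c + |s|) ^ 2 ≤ (1 + 5 / 8 * q) ^ 2 := by
      have : c + |s| ≤ 1 + 5 / 8 * q := by linarith
      have h0 : 0 ≤ c + |s| := by positivity
      gcongr
    nlinarith
  have hs1 : s ^ 2 ≤ 1 / 50 := by
    have h3 : |s| ^ 2 ≤ c * |s| := by nlinarith
    have h4 : (c * |s|) ^ 2 ≤ (13 / 20 * q) ^ 2 := by gcongr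
    have h5 : c ^ 2 * s ^ 2 ≤ (13 / 20 * q) ^ 2 := by
      rw [← hss]
      linarith [mul_pow c |s| 2]
    have h6 : s ^ 2 ≤ c ^ 2 := by nlinarith
    have h7 : 1 / 2 ≤ c ^ 2 := by linarith
    have h8 : 1 / 2 * s ^ 2 ≤ c ^ 2 * s ^ 2 := mul_le_mul_of_nonneg_right h7 (sq_nonneg _)
    have h9 : (13 / 20 * q) ^ 2 ≤ (13 / 20 * (1 / 8)) ^ 2 := by gcongr
    norm_num at h9
    linarith
  have hcpos : 0 < c := by
    rcases hc0.lt_or_eq with h3 | h3
    · exact h3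
    · exfalso
      have h4 : c ^ 2 = 0 := by rw [← h3]; norm_num
      linarith
  have hsq' : |s| ≤ q * c := by
    have h3 : |s| * c ≤ q * c * c := by
      have h4 : 49 / 50 ≤ c ^ 2 := by linarith
      have h5 : q * (49 / 50) ≤ q * c ^ 2 := mul_le_mul_of_nonneg_left h4 hq.le
      have h6 : q * c * c = q * c ^ 2 := by ring
      have h7 : |s| * c = c * |s| := mul_comm _ _
      rw [h6, h7]
      linarith
    exact le_of_mul_le_mul_right h3 hcpos
  set v := s / (c * q) with hv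
  have hcq : 0 < c * q := mul_pos hcpos hq
  have hsv : s = c * (q * v) := by
    rw [hv]
    field_simp
  have hv1 : |v| ≤ 1 := by
    rw [hv, abs_div, abs_of_pos hcq, div_le_one hcq]
    linarith
  have hw1 : v ^ 2 ≤ 1 := (sq_le_one_iff_abs_le_one v).2 hv1
  have hw0 : 0 ≤ v ^ 2 := sq_nonneg v
  have hMuc : M u = c * M !₂[1, q * v] := by
    rw [← h.smul c hc0]
    congr 1
    ext i
    fin_cases i
    · simp [hc]
    · show u 1 = c * (q * v)
      exact hsv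
  have hlow : c * (1 + q * (1 + v ^ 2) / 2) ≤ 1 + q / 2 + C * q ^ 2 := by
    calc c * (1 + q * (1 + v ^ 2) / 2) ≤ c * M !₂[1, q * v] :=
          mul_le_mul_of_nonneg_left (h1 v hv1) hc0
      _ = M u := hMuc.symm
      _ ≤ M e := hMue
      _ ≤ _ := h2
  set X := q ^ 2 * v ^ 2 with hX
  have hX0 : 0 ≤ X := by positivity
  have hX1 : X ≤ 1 := by
    rw [hX]
    have h3 : q ^ 2 ≤ 1 := pow_le_one₀ hq.le (by linarith)
    calc q ^ 2 * v ^ 2 ≤ 1 * 1 := mul_le_mul h3 hw1 hw0 zero_le_one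
      _ = 1 := one_mul 1
  have hcX : c ^ 2 * (1 + X) = 1 := by
    have h3 : c ^ 2 * (1 + X) = c ^ 2 + (c * (q * v)) ^ 2 := by
      rw [hX]
      ring
    rw [h3, ← hsv, hsq]
  have hclow : 1 - X / 2 ≤ c := by
    by_contra hcon
    push Not at hcon
    have h3 : c ^ 2 < (1 - X / 2) ^ 2 := pow_lt_pow_left₀ hcon hc0 two_ne_zero
    have h4 : c ^ 2 * (1 + X) < (1 - X / 2) ^ 2 * (1 + X) := by
      apply mul_lt_mul_of_pos_right h3
      linarith
    have h5 : (1 - X / 2) ^ 2 * (1 + X) ≤ 1 := by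
      have h6 : (1 - X / 2) ^ 2 * (1 + X) = 1 - X ^ 2 * (3 - X) / 4 := by ring
      have h7 : 0 ≤ X ^ 2 * (3 - X) := mul_nonneg (sq_nonneg X) (by linarith)
      rw [h6]
      linarith
    linarith
  have hw : v ^ 2 ≤ 3 * C * q := by
    have h3 : (1 - X / 2) * (1 + q * (1 + v ^ 2) / 2) ≤ 1 + q / 2 + C * q ^ 2 :=
      (mul_le_mul_of_nonneg_right hclow (by positivity)).trans hlow
    have h4 : X / 2 * (1 + q * (1 + v ^ 2) / 2) ≤ X / 2 * (9 / 8) := by
      apply mul_le_mul_of_nonneg_left _ (by linarith)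
      have h5 : q * (1 + v ^ 2) ≤ q * 2 := mul_le_mul_of_nonneg_left (by linarith) hq.le
      linarith
    have h5 : q * v ^ 2 / 2 - X / 2 * (9 / 8) ≤ C * q ^ 2 := by
      have h6 : (1 - X / 2) * (1 + q * (1 + v ^ 2) / 2) =
          1 + q / 2 + q * v ^ 2 / 2 - X / 2 * (1 + q * (1 + v ^ 2) / 2) := by ring
      rw [h6] at h3
      linarith
    have h6 : q * (v ^ 2 * (1 - 9 / 8 * q)) ≤ q * (2 * C * q) := by
      rw [hX] at h5
      have h7 : q * (v ^ 2 * (1 - 9 / 8 * q)) = 2 * (q * v ^ 2 / 2 - q ^ 2 * v ^ 2 / 2 * (9 / 8)) := by ring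
      have h8 : q * (2 * C * q) = 2 * (C * q ^ 2) := by ring
      rw [h7, h8]
      linarith
    have h7 : v ^ 2 * (1 - 9 / 8 * q) ≤ 2 * C * q := le_of_mul_le_mul_left h6 hq
    have h8 : v ^ 2 * (1 - 9 / 64) ≤ v ^ 2 * (1 - 9 / 8 * q) := by
      apply mul_le_mul_of_nonneg_left _ hw0
      linarith
    nlinarith
  have hdist : ‖u - e‖ ^ 2 = 2 - 2 * c := by
    rw [norm_sub_sq_real, hu.1]
    have h3 : ‖e‖ = 1 := by simp [he]
    have h4 : inner ℝ u e = u 0 := by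
      rw [he, EuclideanSpace.inner_single_right]
      simp
    rw [h3, h4, ← hc]
    ring
  rw [hdist]
  have h9 : q ^ 2 * v ^ 2 ≤ q ^ 2 * (3 * C * q) := by gcongr
  calc 2 - 2 * c ≤ X := by linarith
    _ ≤ q ^ 2 * (3 * C * q) := h9
    _ = 3 * C * q ^ 3 := by ring

end Pool.Agent.Lib.MP_a83deb_pr
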