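import Pool.Agent.Lib.MP_a83deb_pr.Final

/-!
# Directions of curvature near every direction of the cap

If `μ (x) ≥ x₁ (1 + q / 2) + x₂² / (2 q x₁)` for `|x₂| ≤ q x₁` and `μ (1, q v₀) ≤ 1 + q (1 + v₀²) / 2 + C q²` for one
`v₀` with `|v₀| < 1`, then, for small `q`, there is a direction of curvature near the direction `(1, q v₀)`: the
direction of the point of the shape which is farthest from a point on the normal of the parabola.
-/

set_option autoImplicit false

open Metric Filter Topology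

namespace Pool.Agent.Lib.MP_a83deb_pr

private theorem id1 {q v z w A al t y : ℝ} (hA0 : A ≠ 0) (hA : A = 1 + q * (1 + v ^ 2) / 2)
    (hal : al = 1 + q * (1 - v ^ 2) / 2) (ht : t = 1 - (al * z + v * w)) (hy : y = w - q * v * z) :
    z - 1 / A = -(t + v * y) / A := by
  have h1 : z * A - 1 = -(t + v * y) := by
    rw [ht, hy, hal, hA]
    ring
  rw [← h1]
  field_simp

private theorem id2 {q v z w al y : ℝ} (hq : q ≠ 0) (hz : z ≠ 0)
    (hal : al = 1 + q * (1 - v ^ 2) / 2) (hy : y = w - q * v * z) :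
    z * (1 + q / 2) + w ^ 2 / (2 * q * z) = (al * z + v * w) + y ^ 2 / (2 * q * z) := by
  rw [hy, hal]
  field_simp
  ring

private theorem id3 {v z A t y : ℝ} (h : z - 1 / A = -(t + v * y) / A) :
    z = (1 - t - v * y) / A := by
  have h1 : z = 1 / A + -(t + v * y) / A := by linarith
  rw [h1]
  ring

private theorem core {q v C κ z w A al ρ t y : ℝ} (hq : 0 < q) (hq8 : q ≤ 1 / 8)
    (hv : |v| < 1) (hκ : κ = (1 - |v|) ^ 2 / 2) (hCq : 4 * C * q ≤ κ)
    (hA : A = 1 + q * (1 + v ^ 2) / 2) (hal : al = 1 + q * (1 - v ^ 2) / 2) (hρ : ρ = 15 + 20 / κ)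
    (ht : t = 1 - (al * z + v * w)) (hy : y = w - q * v * z)
    (hl1 : |z| + |w| ≤ 1)
    (hcone : 0 < z → |w| ≤ q * z → z * (1 + q / 2) + w ^ 2 / (2 * q * z) ≤ 1)
    (hD : 2 * ρ * t ≤ (z - 1 / A) ^ 2 + (w - q * v / A) ^ 2 + 2 * ρ * (C * q ^ 2)) :
    1 / 2 ≤ z ∧ y ^ 2 ≤ 4 * C * q ^ 3 * z := by
  have hv0 : 0 ≤ |v| := abs_nonneg v
  have hv2 : v ^ 2 ≤ 1 := (sq_le_one_iff_abs_le_one v).2 hv.le
  have hv20 : 0 ≤ v ^ 2 := sq_nonneg v
  have hκ0 : 0 < κ := by
    rw [hκ]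
    have : 0 < 1 - |v| := by linarith
    positivity
  have hκ1 : κ ≤ (1 - |v|) / 2 := by
    rw [hκ]
    have h1 : (1 - |v|) ^ 2 ≤ (1 - |v|) := by
      rw [sq]
      exact mul_le_of_le_one_right (by linarith) (by linarith)
    linarith
  have hκ2 : κ ≤ 1 / 2 := by linarith
  have hqv : q * v ^ 2 ≤ q := mul_le_of_le_one_right hq.le hv2
  have hqv0 : 0 ≤ q * v ^ 2 := by positivity
  have hA1 : 1 ≤ A := by rw [hA]; linarith
  have hA2 : A ≤ 9 / 8 := by rw [hA]; linarith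
  have hA0 : 0 < A := by linarith
  have hal1 : 1 ≤ al := by rw [hal]; linarith
  have hal2 : al ≤ 17 / 16 := by rw [hal]; linarith
  have hz1 : |z| ≤ 1 := by linarith [abs_nonneg w]
  have hw1 : |w| ≤ 1 := by linarith [abs_nonneg z]
  have hvw : |v * w| ≤ |v| * |w| := (abs_mul v w).le
  have hvw' := abs_le.1 hvw
  -- `z` and `w` in terms of `t` and `y`
  have hzt : z - 1 / A = -(t + v * y) / A := id1 hA0.ne' hA hal ht hy
  have hwt : w - q * v / A = y + q * v * (z - 1 / A) := by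
    rw [hy]
    ring
  -- the quadratic part
  have hquad : (z - 1 / A) ^ 2 + (w - q * v / A) ^ 2 ≤ 5 * (t ^ 2 + y ^ 2) := by
    have h1 : (t + v * y) ^ 2 ≤ 2 * t ^ 2 + 2 * y ^ 2 := by
      have h2 : (v * y) ^ 2 ≤ y ^ 2 := by
        rw [mul_pow]
        exact mul_le_of_le_one_left (sq_nonneg y) hv2
      have h3 := add_sq_le (a := t) (b := v * y)
      linarith
    have h3 : (z - 1 / A) ^ 2 ≤ 2 * t ^ 2 + 2 * y ^ 2 := by
      rw [hzt, div_pow, neg_sq]
      exact (div_le_self (sq_nonneg _) (one_le_pow₀ hA1)).trans h1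
    have h4 : (q * v * (z - 1 / A)) ^ 2 ≤ 1 / 64 * (2 * t ^ 2 + 2 * y ^ 2) := by
      have h5 : (q * v) ^ 2 ≤ 1 / 64 := by
        rw [mul_pow]
        have h6 : q ^ 2 ≤ 1 / 64 := by
          calc q ^ 2 ≤ (1 / 8) ^ 2 := by gcongr
            _ = 1 / 64 := by norm_num
        calc q ^ 2 * v ^ 2 ≤ 1 / 64 * 1 := mul_le_mul h6 hv2 hv20 (by norm_num)
          _ = 1 / 64 := mul_one _
      rw [mul_pow]
      exact mul_le_mul h5 h3 (sq_nonneg _) (by norm_num)
    have h7 : (w - q * v / A) ^ 2 ≤ 2 * y ^ 2 + 2 * (q * v * (z - 1 / A)) ^ 2 := by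
      rw [hwt]
      have h8 := add_sq_le (a := y) (b := q * v * (z - 1 / A))
      linarith
    linarith [sq_nonneg t, sq_nonneg y]
  -- `t` is between `0` and `3`
  have ht3 : t ≤ 3 := by
    have h1 : -|z| ≤ z := neg_abs_le z
    have h2 : -(17 / 16) * |z| ≤ al * z := by
      have h3 : al * (-|z|) ≤ al * z := mul_le_mul_of_nonneg_left h1 (by linarith)
      have h4 : al * |z| ≤ 17 / 16 * |z| := mul_le_mul_of_nonneg_right hal2 (abs_nonneg z)
      linarith
    have h5 : |v| * |w| ≤ 1 * |w| := mul_le_mul_of_nonneg_right hv.le (abs_nonneg w)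
    rw [ht]
    linarith [hvw'.1, abs_nonneg w, abs_nonneg z]
  -- the two cases
  by_cases hc : 0 < z ∧ |w| ≤ q * z
  · obtain ⟨hz, hwz⟩ := hc
    have h1 := hcone hz hwz
    have hqz : 0 < 2 * q * z := by positivity
    have hzz : z ≤ 1 := (le_abs_self z).trans hz1
    have hgap : y ^ 2 / (2 * q * z) ≤ t := by
      have h2 := id2 (w := w) hq.ne' hz.ne' hal hy
      rw [h2] at h1
      rw [ht]
      linarith
    have hyt : y ^ 2 ≤ 2 * q * z * t := by
      rw [div_le_iff₀ hqz] at hgap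
      linarith
    have ht0 : 0 ≤ t := le_trans (by positivity) hgap
    have hyt2 : y ^ 2 ≤ 1 / 4 * t := by
      have h3 : 2 * q * z * t ≤ 1 / 4 * t := by
        apply mul_le_mul_of_nonneg_right _ ht0
        have h4 : q * z ≤ 1 / 8 * 1 := mul_le_mul hq8 hzz hz.le (by norm_num)
        linarith
      linarith
    have htt : t ^ 2 ≤ 3 * t := by
      rw [sq]
      exact mul_le_mul_of_nonneg_right ht3 ht0
    have hρ17 : 17 ≤ ρ := by
      rw [hρ]
      have : 20 / (1 / 2) ≤ 20 / κ := div_le_div_of_nonneg_left (by norm_num) hκ0 hκ2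
      norm_num at this
      linarith
    have ht2 : t ≤ 2 * (C * q ^ 2) := by
      have h3 : 2 * ρ * t ≤ 17 * t + 2 * ρ * (C * q ^ 2) := by linarith
      have h4 : 17 * t ≤ ρ * t := mul_le_mul_of_nonneg_right hρ17 ht0
      have h5 : ρ * t ≤ ρ * (2 * (C * q ^ 2)) := by linarith
      exact le_of_mul_le_mul_left h5 (by linarith)
    have hCq2 : C * q ^ 2 ≤ 1 / 64 := by
      have h3 : C * q ^ 2 = (4 * C * q) * q / 4 := by ring
      rw [h3]
      have h4 : (4 * C * q) * q ≤ 1 / 2 * (1 / 8) :=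
        mul_le_mul (hCq.trans hκ2) hq8 hq.le (by norm_num)
      linarith
    have hfin : y ^ 2 ≤ 4 * C * q ^ 3 * z := by
      calc y ^ 2 ≤ 2 * q * z * t := hyt
        _ ≤ 2 * q * z * (2 * (C * q ^ 2)) := mul_le_mul_of_nonneg_left ht2 hqz.le
        _ = 4 * C * q ^ 3 * z := by ring
    refine ⟨?_, hfin⟩
    have hy1 : |y| ≤ 1 / 4 := by
      have h3 : y ^ 2 ≤ (1 / 4) ^ 2 := by
        have h4 : 4 * C * q ^ 3 * z ≤ 1 / 16 := by
          have h5 : 4 * C * q ^ 3 * z = 4 * (C * q ^ 2) * (q * z) := by ring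
          rw [h5]
          have h6 : q * z ≤ 1 / 8 * 1 := mul_le_mul hq8 hzz hz.le (by norm_num)
          have h7 : 4 * (C * q ^ 2) ≤ 1 / 16 := by linarith
          have h8 : 4 * (C * q ^ 2) * (q * z) ≤ 1 / 16 * (1 / 8 * 1) :=
            mul_le_mul h7 h6 (by positivity) (by norm_num)
          linarith
        norm_num
        linarith
      exact abs_le_of_sq_le_sq h3 (by norm_num)
    have hvy : |v * y| ≤ 1 / 4 := by
      rw [abs_mul]
      calc |v| * |y| ≤ 1 * (1 / 4) := mul_le_mul hv.le hy1 (abs_nonneg y) zero_le_one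
        _ = 1 / 4 := one_mul _
    have h9 : z = (1 - t - v * y) / A := id3 hzt
    rw [h9, le_div_iff₀ hA0]
    linarith [(abs_le.1 hvy).2]
  · exfalso
    -- outside the cone
    have hyt : |y| ≤ 2 * t / κ ∧ 0 ≤ t ∧ (0 < z → |w| * κ ≤ t) := by
      rcases le_or_gt z 0 with hz | hz
      · have h1 : (1 - |v|) * (|z| + |w|) ≤ t := by
          have h3 : |z| = -z := abs_of_nonpos hz
          have h4 : v * w ≤ |v| * |w| := hvw'.2
          have h5 : al * z ≤ 1 * z := mul_le_mul_of_nonpos_right hal1 hz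
          have h6 : 0 ≤ |v| * |z| := by positivity
          have h7 : (1 - |v|) * (|z| + |w|) = |z| + |w| - |v| * |z| - |v| * |w| := by ring
          rw [h7, ht]
          linarith
        have h0 : 0 ≤ t := le_trans (by
          have : 0 ≤ |z| + |w| := by positivity
          have : 0 ≤ 1 - |v| := by linarith
          positivity) h1
        refine ⟨?_, h0, fun h => absurd h (not_lt.2 hz)⟩
        rw [le_div_iff₀ hκ0]
        have h6 : |y| ≤ |z| + |w| := by
          rw [hy]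
          have h7 : |w - q * v * z| ≤ |w| + |q * v * z| := abs_sub _ _
          have h8 : |q * v * z| ≤ |z| := by
            rw [abs_mul, abs_mul, abs_of_pos hq]
            have h9 : q * |v| ≤ 1 := mul_le_one₀ (by linarith) hv0 hv.le
            calc q * |v| * |z| ≤ 1 * |z| := mul_le_mul_of_nonneg_right h9 (abs_nonneg z)
              _ = |z| := one_mul _
          linarith
        calc |y| * κ ≤ (|z| + |w|) * ((1 - |v|) / 2) :=
              mul_le_mul h6 hκ1 hκ0.le (by positivity)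
          _ ≤ t / 2 := by linarith
          _ ≤ 2 * t := by linarith
      · have hwz : q * z < |w| := by
          by_contra hcon
          exact hc ⟨hz, not_lt.1 hcon⟩
        have hzabs : |z| = z := abs_of_pos hz
        have h1 : |w| * κ ≤ t := by
          -- `1 ≥ z + |w|`
          have h2 : v * w ≤ |v| * |w| := hvw'.2
          have h3 : z + |w| - (al * z + |v| * |w|) ≤ t := by
            rw [ht]
            rw [hzabs] at hl1
            linarith
          have h4 : z + |w| - (al * z + |v| * |w|) = (1 - |v|) * |w| - q * z * ((1 - v ^ 2) / 2) := by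
            rw [hal]
            ring
          have h5 : q * z * ((1 - v ^ 2) / 2) ≤ |w| * ((1 - v ^ 2) / 2) :=
            mul_le_mul_of_nonneg_right hwz.le (by linarith)
          have h6 : |w| * κ = (1 - |v|) * |w| - |w| * ((1 - v ^ 2) / 2) := by
            rw [hκ, ← sq_abs v]
            ring
          rw [h6]
          linarith
        have h0 : 0 ≤ t := le_trans (by positivity) h1
        refine ⟨?_, h0, fun _ => h1⟩
        rw [le_div_iff₀ hκ0]
        have h7 : |y| ≤ 2 * |w| := by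
          rw [hy]
          have h7 : |w - q * v * z| ≤ |w| + |q * v * z| := abs_sub _ _
          have h8 : |q * v * z| ≤ |w| := by
            rw [abs_mul, abs_mul, abs_of_pos hq, hzabs]
            have h9 : q * |v| * z ≤ q * 1 * z := by
              have := hv.le
              gcongr
            linarith
          linarith
        calc |y| * κ ≤ 2 * |w| * κ := mul_le_mul_of_nonneg_right h7 hκ0.le
          _ = 2 * (|w| * κ) := by ring
          _ ≤ 2 * t := by linarith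
    obtain ⟨hyk, ht0, hwk⟩ := hyt
    have htt : t ^ 2 ≤ 3 * t := by
      rw [sq]
      exact mul_le_mul_of_nonneg_right ht3 ht0
    have hy2 : |y| ≤ 2 := by
      rw [hy]
      have h7 : |w - q * v * z| ≤ |w| + |q * v * z| := abs_sub _ _
      have h8 : |q * v * z| ≤ 1 := by
        rw [abs_mul, abs_mul, abs_of_pos hq]
        have h9 : q * |v| ≤ 1 := mul_le_one₀ (by linarith) hv0 hv.le
        calc q * |v| * |z| ≤ 1 * 1 := mul_le_mul h9 hz1 (abs_nonneg z) zero_le_one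
          _ = 1 := one_mul _
      linarith
    have hyy : y ^ 2 ≤ 4 * t / κ := by
      rw [← sq_abs, sq]
      calc |y| * |y| ≤ 2 * (2 * t / κ) := mul_le_mul hy2 hyk (abs_nonneg y) (by norm_num)
        _ = 4 * t / κ := by ring
    have hρ0 : 0 < ρ := by
      rw [hρ]
      positivity
    have ht2 : t ≤ 2 * (C * q ^ 2) := by
      have h1 : 2 * ρ * t ≤ (15 + 20 / κ) * t + 2 * ρ * (C * q ^ 2) := by
        have h2 : (15 + 20 / κ) * t = 15 * t + 5 * (4 * t / κ) := by ring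
        rw [h2]
        linarith
      rw [← hρ] at h1
      have h3 : ρ * t ≤ ρ * (2 * (C * q ^ 2)) := by linarith
      exact le_of_mul_le_mul_left h3 hρ0
    have hCq2 : 4 * (C * q ^ 2) ≤ κ * q := by
      calc 4 * (C * q ^ 2) = (4 * C * q) * q := by ring
        _ ≤ κ * q := mul_le_mul_of_nonneg_right hCq hq.le
    have ht4 : t ≤ κ * q / 2 := by linarith
    have hyq : |y| ≤ q := by
      refine hyk.trans ?_
      rw [div_le_iff₀ hκ0]
      linarith
    have hvy : |v * y| ≤ 1 / 8 := by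
      rw [abs_mul]
      calc |v| * |y| ≤ 1 * (1 / 8) := mul_le_mul hv.le (hyq.trans hq8) (abs_nonneg y) zero_le_one
        _ = 1 / 8 := one_mul _
    have hκq : κ * q ≤ 1 / 16 := by
      calc κ * q ≤ 1 / 2 * (1 / 8) := mul_le_mul hκ2 hq8 hq.le (by norm_num)
        _ = 1 / 16 := by norm_num
    have hzlow : 5 / 8 ≤ z := by
      have h9 : z = (1 - t - v * y) / A := id3 hzt
      rw [h9, le_div_iff₀ hA0]
      linarith [(abs_le.1 hvy).2]
    have hz : 0 < z := by linarith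
    have hwz : q * z < |w| := by
      by_contra hcon
      exact hc ⟨hz, not_lt.1 hcon⟩
    have h10 := hwk hz
    have h11 : q * z * κ < |w| * κ := mul_lt_mul_of_pos_right hwz hκ0
    have h12 : κ * q * (5 / 8) ≤ κ * q * z := mul_le_mul_of_nonneg_left hzlow (by positivity)
    have h13 : 0 < κ * q := by positivity
    linarith

private theorem id4 {q v A al ρ : ℝ} (hA0 : A ≠ 0) (h : al + q * v ^ 2 = A) (a b : ℝ) :
    (a - (1 / A - ρ * al)) ^ 2 + (b - (q * v / A - ρ * v)) ^ 2 =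
      (a - 1 / A) ^ 2 + (b - q * v / A) ^ 2 + 2 * ρ * (al * a + v * b - 1) + ρ ^ 2 * (al ^ 2 + v ^ 2) := by
  have h1 : al * (1 / A) + v * (q * v / A) = 1 := by
    have h2 : al * (1 / A) + v * (q * v / A) = (al + q * v ^ 2) / A := by ring
    rw [h2, h, div_self hA0]
  linear_combination (-2 * ρ) * h1

private theorem dist_sq (x c : EuclideanSpace ℝ (Fin 2)) :
    dist x c ^ 2 = (x 0 - c 0) ^ 2 + (x 1 - c 1) ^ 2 := by
  rw [EuclideanSpace.dist_eq, Real.sq_sqrt (Finset.sum_nonneg fun i _ => sq_nonneg _), Fin.sum_univ_two,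
    Real.dist_eq, Real.dist_eq, sq_abs, sq_abs]

/-- **directions of curvature near every direction of the cap** -/
theorem Nm.cap2 {M : EuclideanSpace ℝ (Fin 2) → ℝ} {b q C v : ℝ} (h : Nm M 1 b) (hq : 0 < q)
    (hq8 : q ≤ 1 / 8) (hC : 0 ≤ C) (hv : |v| < 1) (hCq : 8 * C * q ≤ (1 - |v|) ^ 2)
    (hlow : ∀ x : EuclideanSpace ℝ (Fin 2), 0 < x 0 → |x 1| ≤ q * x 0 →
      x 0 * (1 + q / 2) + x 1 ^ 2 / (2 * q * x 0) ≤ M x)
    (hup : M !₂[1, q * v] ≤ 1 + q * (1 + v ^ 2) / 2 + C * q ^ 2) :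
    ∃ u, Curv M u ∧ 0 < u 0 ∧ (u 1 - q * v * u 0) ^ 2 ≤ 8 * C * q ^ 3 * u 0 ^ 2 := by
  set κ : ℝ := (1 - |v|) ^ 2 / 2 with hκ
  set A : ℝ := 1 + q * (1 + v ^ 2) / 2 with hA
  set al : ℝ := 1 + q * (1 - v ^ 2) / 2 with hal
  set ρ : ℝ := 15 + 20 / κ with hρ
  set P : EuclideanSpace ℝ (Fin 2) := !₂[1, q * v] with hP
  set c : EuclideanSpace ℝ (Fin 2) := !₂[1 / A - ρ * al, q * v / A - ρ * v] with hc
  have hκ0 : 0 < κ := by
    have : 0 < 1 - |v| := by linarith
    positivity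
  have hρ0 : 0 < ρ := by positivity
  have hv20 : 0 ≤ v ^ 2 := sq_nonneg v
  have hA1 : 1 ≤ A := by
    have : 0 ≤ q * (1 + v ^ 2) / 2 := by positivity
    linarith
  have hA0 : A ≠ 0 := by linarith
  have halA : al + q * v ^ 2 = A := by
    rw [hal, hA]
    ring
  have hP0 : P 0 = 1 := by simp [hP]
  have hP1 : P 1 = q * v := by simp [hP]
  have hc0 : c 0 = 1 / A - ρ * al := by simp [hc]
  have hc1 : c 1 = q * v / A - ρ * v := by simp [hc]
  have hPne : P ≠ 0 := by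
    intro h0
    rw [h0] at hP0
    simp at hP0
  have hMP : 0 < M P := h.pos hPne
  obtain ⟨z, hz, hfar⟩ := h.exists_far c
  obtain ⟨hMz, hzne, hcurv, -⟩ := h.far_curv 0 hz hfar
  have hp : M ((M P)⁻¹ • P) ≤ 1 := by
    rw [h.smul _ (inv_pos.2 hMP).le, inv_mul_cancel₀ hMP.ne']
  have hd := hfar _ hp
  have hd2 : dist ((M P)⁻¹ • P) c ^ 2 ≤ dist z c ^ 2 := by
    have := dist_nonneg (x := (M P)⁻¹ • P) (y := c)
    gcongr
  have hp0 : ((M P)⁻¹ • P) 0 = (M P)⁻¹ := by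
    show (M P)⁻¹ * P 0 = _
    rw [hP0, mul_one]
  have hp1 : ((M P)⁻¹ • P) 1 = (M P)⁻¹ * (q * v) := by
    show (M P)⁻¹ * P 1 = _
    rw [hP1]
  rw [dist_sq, dist_sq, hp0, hp1, hc0, hc1, id4 hA0 halA, id4 hA0 halA] at hd2
  have hval : -(C * q ^ 2) ≤ al * (M P)⁻¹ + v * ((M P)⁻¹ * (q * v)) - 1 := by
    have h1 : al * (M P)⁻¹ + v * ((M P)⁻¹ * (q * v)) = A / M P := by
      rw [← halA]
      ring
    rw [h1]
    have h2 : 1 - C * q ^ 2 ≤ A / M P := by
      rw [le_div_iff₀ hMP]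
      have h3 : 0 ≤ C * q ^ 2 := by positivity
      rcases le_or_gt (1 - C * q ^ 2) 0 with h4 | h4
      · have h5 : (1 - C * q ^ 2) * M P ≤ 0 := mul_nonpos_of_nonpos_of_nonneg h4 hMP.le
        linarith
      · calc (1 - C * q ^ 2) * M P ≤ (1 - C * q ^ 2) * (A + C * q ^ 2) := by
              apply mul_le_mul_of_nonneg_left _ h4.le
              rw [hA]
              exact hup
          _ = A - C * q ^ 2 * (A - 1) - (C * q ^ 2) ^ 2 := by ring
          _ ≤ A := by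
              have h5 : 0 ≤ C * q ^ 2 * (A - 1) := mul_nonneg h3 (by linarith)
              have h6 : 0 ≤ (C * q ^ 2) ^ 2 := sq_nonneg _
              linarith
    linarith
  have hD : 2 * ρ * (1 - (al * z 0 + v * z 1)) ≤
      (z 0 - 1 / A) ^ 2 + (z 1 - q * v / A) ^ 2 + 2 * ρ * (C * q ^ 2) := by
    have h1 : 2 * ρ * (-(C * q ^ 2)) ≤ 2 * ρ * (al * (M P)⁻¹ + v * ((M P)⁻¹ * (q * v)) - 1) :=
      mul_le_mul_of_nonneg_left hval (by linarith)
    have h2 : 0 ≤ ((M P)⁻¹ - 1 / A) ^ 2 := sq_nonneg _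
    have h3 : 0 ≤ ((M P)⁻¹ * (q * v) - q * v / A) ^ 2 := sq_nonneg _
    linarith
  have hl1 : |z 0| + |z 1| ≤ 1 := by
    have h1 := h.ge z
    rw [one_mul] at h1
    have h2 : l1 z = |z 0| + |z 1| := by
      unfold l1
      rw [Fin.sum_univ_two]
    rw [← h2]
    exact h1.trans hz
  have hcone : 0 < z 0 → |z 1| ≤ q * z 0 → z 0 * (1 + q / 2) + z 1 ^ 2 / (2 * q * z 0) ≤ 1 :=
    fun h1 h2 => (hlow z h1 h2).trans hz
  obtain ⟨hz0, hy⟩ := core (t := 1 - (al * z 0 + v * z 1)) (y := z 1 - q * v * z 0) hq hq8 hv hκ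
    (by rw [hκ]; linarith) hA hal hρ rfl rfl hl1 hcone hD
  have hn : 0 < ‖z‖⁻¹ := inv_pos.2 (norm_pos_iff.2 hzne)
  refine ⟨_, hcurv, ?_, ?_⟩
  · show 0 < ‖z‖⁻¹ * z 0
    have : 0 < z 0 := by linarith
    positivity
  · show (‖z‖⁻¹ * z 1 - q * v * (‖z‖⁻¹ * z 0)) ^ 2 ≤ 8 * C * q ^ 3 * (‖z‖⁻¹ * z 0) ^ 2
    have h1 : (‖z‖⁻¹ * z 1 - q * v * (‖z‖⁻¹ * z 0)) ^ 2 = ‖z‖⁻¹ ^ 2 * (z 1 - q * v * z 0) ^ 2 := by ring
    have h2 : 8 * C * q ^ 3 * (‖z‖⁻¹ * z 0) ^ 2 = ‖z‖⁻¹ ^ 2 * (4 * C * q ^ 3 * (2 * z 0 ^ 2)) := by ring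
    rw [h1, h2]
    apply mul_le_mul_of_nonneg_left _ (sq_nonneg _)
    refine hy.trans ?_
    apply mul_le_mul_of_nonneg_left _ (by positivity)
    have h3 : z 0 * 1 ≤ z 0 * (2 * z 0) := mul_le_mul_of_nonneg_left (by linarith) (by linarith)
    linarith

/-- the same for all `q`, with an explicit constant -/
theorem Nm.cap2_all {M : EuclideanSpace ℝ (Fin 2) → ℝ} {b q C v : ℝ} (h : Nm M 1 b)
    (hsp : ∀ ε π x, M (sp ε π x) = M x) (hq : 0 < q) (hq1 : q < 1) (hC : 1 ≤ C) (hv : |v| < 1)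
    (hlow : ∀ x : EuclideanSpace ℝ (Fin 2), 0 < x 0 → |x 1| ≤ q * x 0 →
      x 0 * (1 + q / 2) + x 1 ^ 2 / (2 * q * x 0) ≤ M x)
    (hup : M !₂[1, q * v] ≤ 1 + q * (1 + v ^ 2) / 2 + C * q ^ 2)
    (hme : M (EuclideanSpace.single 0 1) ≤ 1 + C * q) :
    ∃ u, Curv M u ∧ 0 < u 0 ∧
      (u 1 - q * v * u 0) ^ 2 ≤ 128 * C ^ 3 * q ^ 3 / (1 - |v|) ^ 2 * u 0 ^ 2 := by
  have hv0 : 0 ≤ |v| := abs_nonneg v
  have hw : 0 < 1 - |v| := by linarith
  have hw2 : 0 < (1 - |v|) ^ 2 := by positivity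
  have hw1 : (1 - |v|) ^ 2 ≤ 1 := pow_le_one₀ hw.le (by linarith)
  have hC0 : 0 < C := by linarith
  have hq3 : 0 < q ^ 3 := by positivity
  rcases le_or_gt (8 * C * q) ((1 - |v|) ^ 2) with hs | hb
  · have hq8 : q ≤ 1 / 8 := by
      have h1 : 8 * 1 * q ≤ 8 * C * q := by gcongr
      linarith
    obtain ⟨u, h1, h2, h3⟩ := h.cap2 hq hq8 hC0.le hv hs hlow hup
    refine ⟨u, h1, h2, h3.trans ?_⟩
    apply mul_le_mul_of_nonneg_right _ (sq_nonneg _)
    rw [le_div_iff₀ hw2]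
    have h4 : C ≤ C ^ 3 := by
      calc C = C ^ 1 := (pow_one C).symm
        _ ≤ C ^ 3 := pow_le_pow_right₀ hC (by norm_num)
    have h5 : 8 * C * q ^ 3 ≤ 128 * C ^ 3 * q ^ 3 := by
      apply mul_le_mul_of_nonneg_right _ hq3.le
      linarith
    calc 8 * C * q ^ 3 * (1 - |v|) ^ 2 ≤ 8 * C * q ^ 3 * 1 := by gcongr
      _ ≤ 128 * C ^ 3 * q ^ 3 := by rw [mul_one]; exact h5
  · obtain ⟨u, hu, -, hmax, hl1, -⟩ := (h.diamond hsp 0).local hsp 0
    rw [div_one] at hl1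
    have hsc : |u 1| ≤ u 0 := hmax 1
    have hs0 : 0 ≤ |u 1| := abs_nonneg _
    have hc0 : 0 ≤ u 0 := hs0.trans hsc
    have hsq : u 0 ^ 2 + |u 1| ^ 2 = 1 := by
      have h3 := EuclideanSpace.norm_eq u
      rw [hu.1] at h3
      have h4 : ∑ i, ‖u i‖ ^ 2 = 1 := by
        have h5 := congrArg (fun t : ℝ => t ^ 2) h3
        simp only at h5
        rw [Real.sq_sqrt (Finset.sum_nonneg fun i _ => sq_nonneg _)] at h5
        linarith
      rw [Fin.sum_univ_two, Real.norm_eq_abs, Real.norm_eq_abs, sq_abs] at h4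
      exact h4
    have hl : u 0 + |u 1| ≤ 1 + C * q := by
      have h3 : l1 u = u 0 + |u 1| := by
        unfold l1
        rw [Fin.sum_univ_two, abs_of_nonneg hc0]
      rw [← h3]
      exact hl1.trans hme
    have hss : |u 1| ^ 2 ≤ u 0 ^ 2 := by gcongr
    have hhalf : 1 / 2 ≤ u 0 ^ 2 := by linarith
    have hpos : 0 < u 0 := by
      rcases hc0.lt_or_eq with h3 | h3
      · exact h3
      · exfalso
        rw [← h3] at hhalf
        norm_num at hhalf
    have hprod : 2 * (u 0 * |u 1|) ≤ 3 * C * q := by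
      have h1 : 2 * (u 0 * |u 1|) = (u 0 + |u 1|) ^ 2 - 1 := by
        have h2 : (u 0 + |u 1|) ^ 2 = (u 0 ^ 2 + |u 1| ^ 2) + 2 * (u 0 * |u 1|) := by ring
        rw [h2, hsq]
        ring
      rcases le_or_gt (C * q) 1 with h3 | h3
      · have h4 : (u 0 + |u 1|) ^ 2 ≤ (1 + C * q) ^ 2 := by gcongr
        have h5 : (1 + C * q) ^ 2 = 1 + 2 * (C * q) + (C * q) * (C * q) := by ring
        have h6 : (C * q) * (C * q) ≤ 1 * (C * q) := mul_le_mul_of_nonneg_right h3 (by positivity)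
        rw [h1]
        linarith
      · have h4 : 2 * (u 0 * |u 1|) ≤ u 0 ^ 2 + |u 1| ^ 2 := by
          have := two_mul_le_add_sq (u 0) |u 1|
          linarith
        linarith
    have hs : |u 1| ≤ 3 * C * q * u 0 := by
      calc |u 1| = |u 1| * 1 := (mul_one _).symm
        _ ≤ |u 1| * (2 * u 0 ^ 2) := mul_le_mul_of_nonneg_left (by linarith) hs0
        _ = 2 * (u 0 * |u 1|) * u 0 := by ring
        _ ≤ 3 * C * q * u 0 := mul_le_mul_of_nonneg_right hprod hc0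
    have hdiff : |u 1 - q * v * u 0| ≤ 4 * C * q * u 0 := by
      have h1 : |u 1 - q * v * u 0| ≤ |u 1| + |q * v * u 0| := abs_sub _ _
      have h2 : |q * v * u 0| ≤ C * q * u 0 := by
        rw [abs_mul, abs_mul, abs_of_pos hq, abs_of_pos hpos]
        apply mul_le_mul_of_nonneg_right _ hc0
        calc q * |v| ≤ q * C := mul_le_mul_of_nonneg_left (by linarith) hq.le
          _ = C * q := mul_comm _ _
      linarith
    refine ⟨u, hu, hpos, ?_⟩
    calc (u 1 - q * v * u 0) ^ 2 = |u 1 - q * v * u 0| ^ 2 := (sq_abs _).symm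
      _ ≤ (4 * C * q * u 0) ^ 2 := by gcongr
      _ = 16 * C ^ 2 * q ^ 2 * u 0 ^ 2 := by ring
      _ ≤ _ := by
        apply mul_le_mul_of_nonneg_right _ (sq_nonneg _)
        rw [le_div_iff₀ hw2]
        calc 16 * C ^ 2 * q ^ 2 * (1 - |v|) ^ 2 ≤ 16 * C ^ 2 * q ^ 2 * (8 * C * q) := by gcongr
          _ = 128 * C ^ 3 * q ^ 3 := by ring

/-- **the number of directions of curvature** is at least about `1 / (9 √(C q))` -/
theorem Nm.count {M : EuclideanSpace ℝ (Fin 2) → ℝ} {b q C : ℝ} (h : Nm M 1 b) (hq : 0 < q)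
    (hC : 1 ≤ C)
    (hlow : ∀ x : EuclideanSpace ℝ (Fin 2), 0 < x 0 → |x 1| ≤ q * x 0 →
      x 0 * (1 + q / 2) + x 1 ^ 2 / (2 * q * x 0) ≤ M x)
    (hup : ∀ v : ℝ, |v| ≤ 1 → M !₂[1, q * v] ≤ 1 + q * (1 + v ^ 2) / 2 + C * q ^ 2)
    (N : ℕ) (hN : 81 * C * q * N ^ 2 ≤ 1) :
    (N : ℕ∞) ≤ {u | Curv M u}.encard := by
  rcases Nat.eq_zero_or_pos N with h0 | hpos
  · rw [h0]
    simp
  have hN1 : (1 : ℝ) ≤ N := by exact_mod_cast hpos
  have hN0 : (0 : ℝ) < N := by linarith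
  have hC0 : 0 < C := by linarith
  have hCq : 81 * (C * q) ≤ 1 := by
    calc 81 * (C * q) = 81 * C * q * 1 ^ 2 := by ring
      _ ≤ 81 * C * q * N ^ 2 := by gcongr
      _ ≤ 1 := hN
  have hq8 : q ≤ 1 / 8 := by
    have h1 : 1 * q ≤ C * q := by gcongr
    linarith
  have hkN : ∀ k : Fin N, (k : ℝ) < N := fun k => by exact_mod_cast k.2
  have hvk : ∀ k : Fin N, |(k : ℝ) / N - 1 / 2| ≤ 1 / 2 := by
    intro k
    have h1 : (k : ℝ) / N ≤ 1 := (div_le_one hN0).2 (hkN k).le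
    have h2 : 0 ≤ (k : ℝ) / N := by positivity
    rw [abs_le]
    constructor <;> linarith
  have hex : ∀ k : Fin N, ∃ u, Curv M u ∧ 0 < u 0 ∧
      (u 1 - q * ((k : ℝ) / N - 1 / 2) * u 0) ^ 2 ≤ 8 * C * q ^ 3 * u 0 ^ 2 := by
    intro k
    have h1 := hvk k
    refine h.cap2 hq hq8 hC0.le (by linarith) ?_ hlow (hup _ (by linarith))
    have h2 : (1 / 2 : ℝ) ^ 2 ≤ (1 - |(k : ℝ) / N - 1 / 2|) ^ 2 := by
      have h3 : (1 / 2 : ℝ) ≤ 1 - |(k : ℝ) / N - 1 / 2| := by linarith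
      gcongr
    norm_num at h2
    linarith
  choose u hcurv hu0 hbd using hex
  have hinj : Function.Injective u := by
    intro k l hkl
    have h1 := hbd k
    have h2 := hbd l
    rw [← hkl] at h2
    have h3 := hu0 k
    set X := u k 1
    set Y := u k 0
    have h4 : (q * (((k : ℝ) - l) / N) * Y) ^ 2 ≤ 32 * C * q ^ 3 * Y ^ 2 := by
      have h5 : q * (((k : ℝ) - l) / N) * Y =
          (X - q * ((l : ℝ) / N - 1 / 2) * Y) + -(X - q * ((k : ℝ) / N - 1 / 2) * Y) := by ring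
      have h6 := add_sq_le (a := X - q * ((l : ℝ) / N - 1 / 2) * Y)
        (b := -(X - q * ((k : ℝ) / N - 1 / 2) * Y))
      rw [neg_sq] at h6
      rw [h5]
      linarith
    have h7 : ((k : ℝ) - l) ^ 2 * (q ^ 2 * Y ^ 2) ≤ 32 * C * q * N ^ 2 * (q ^ 2 * Y ^ 2) := by
      have h8 : (q * (((k : ℝ) - l) / N) * Y) ^ 2 = ((k : ℝ) - l) ^ 2 * (q ^ 2 * Y ^ 2) / N ^ 2 := by
        field_simp
      rw [h8, div_le_iff₀ (by positivity)] at h4
      calc _ ≤ _ := h4
        _ = _ := by ring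
    have h9 : ((k : ℝ) - l) ^ 2 ≤ 32 * C * q * N ^ 2 := le_of_mul_le_mul_right h7 (by positivity)
    have h10 : ((k : ℝ) - l) ^ 2 < 1 := by linarith
    have h11 : (((k : ℕ) : ℤ) - ((l : ℕ) : ℤ)) ^ 2 < 1 := by exact_mod_cast h10
    have h12 : ((k : ℕ) : ℤ) - ((l : ℕ) : ℤ) = 0 := by
      by_contra hne
      have := Int.one_le_abs hne
      have h13 : 1 ≤ |((k : ℕ) : ℤ) - ((l : ℕ) : ℤ)| ^ 2 := one_le_pow₀ this
      rw [sq_abs] at h13
      omega
    exact Fin.ext (by omega)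
  calc (N : ℕ∞) = (Set.univ : Set (Fin N)).encard := by simp
    _ = (u '' Set.univ).encard := (hinj.injOn.encard_image).symm
    _ ≤ {u | Curv M u}.encard := Set.encard_le_encard (by
        rintro _ ⟨k, -, rfl⟩
        exact hcurv k)

end Pool.Agent.Lib.MP_a83deb_pr
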