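import Mathlib

/-!
# First-passage percolation on `ℤ^d`: definitions
-/

set_option autoImplicit false

open MeasureTheory Filter Topology

namespace Pool.Agent.Lib.MP_a83deb_pr

/-- the nearest-neighbour graph of `ℤ^d` -/
def lattice (d : ℕ) : SimpleGraph (Fin d → ℤ) where
  Adj x y := ∑ i, |x i - y i| = 1
  symm := ⟨fun x y h => by simpa only [abs_sub_comm] using h⟩
  loopless := ⟨fun x h => by simp at h⟩

/-- `T(r)`: the sum of the passage times of the edges of a lattice path `r` -/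
def passage {d : ℕ} (τ : Sym2 (Fin d → ℤ) → ℝ) {x y : Fin d → ℤ} (w : (lattice d).Walk x y) : ℝ :=
  (w.edges.map τ).sum

/-- `T(x, y)` -/
noncomputable def T {d : ℕ} (τ : Sym2 (Fin d → ℤ) → ℝ) (x y : Fin d → ℤ) : ℝ :=
  ⨅ w : (lattice d).Walk x y, passage τ w

/-- the law of an i.i.d. family of passage times with distribution `ν` -/
noncomputable def law (d : ℕ) (ν : Measure ℝ) [IsProbabilityMeasure ν] :
    Measure (Sym2 (Fin d → ℤ) → ℝ) :=
  Measure.infinitePi fun _ => ν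

/-- `E T(0, x)` -/
noncomputable def et (d : ℕ) (ν : Measure ℝ) [IsProbabilityMeasure ν] (x : Fin d → ℤ) : ℝ :=
  ∫ τ, T τ 0 x ∂law d ν

/-- the lattice point nearest to `x` (coordinatewise rounding) -/
noncomputable def rnd {d : ℕ} (x : EuclideanSpace ℝ (Fin d)) : Fin d → ℤ := fun i => round (x i)

/-- `μ` is the time constant: the limit of `E T(0, n u) / n` for unit vectors `u`, extended to a positively
homogeneous function -/
def TimeConstant (d : ℕ) (ν : Measure ℝ) [IsProbabilityMeasure ν]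
    (μ : EuclideanSpace ℝ (Fin d) → ℝ) : Prop :=
  (∀ u, ‖u‖ = 1 → Tendsto (fun n : ℕ => et d ν (rnd ((n : ℝ) • u)) / n) atTop (𝓝 (μ u))) ∧
    ∀ c : ℝ, 0 ≤ c → ∀ x, μ (c • x) = c * μ x

/-- the unit vector `u` is a direction of curvature of `{x | μ x ≤ 1}` -/
def Curv {d : ℕ} (μ : EuclideanSpace ℝ (Fin d) → ℝ) (u : EuclideanSpace ℝ (Fin d)) : Prop :=
  ‖u‖ = 1 ∧ ∃ (c : EuclideanSpace ℝ (Fin d)) (R : ℝ),
    (μ u)⁻¹ • u ∈ Metric.sphere c R ∧ {x | μ x ≤ 1} ⊆ Metric.closedBall c R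

/-- the boundary points in the directions of curvature -/
def pts {d : ℕ} (μ : EuclideanSpace ℝ (Fin d) → ℝ) : Set (EuclideanSpace ℝ (Fin d)) :=
  {z | ∃ u, Curv μ u ∧ z = (μ u)⁻¹ • u}

end Pool.Agent.Lib.MP_a83deb_pr
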