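import Pool.Agent.Lib.MP_a83deb_pr.Milman

/-!
# The time constant is a norm; the diamond
-/

set_option autoImplicit false

open MeasureTheory Metric Filter Topology

namespace Pool.Agent.Lib.MP_a83deb_pr

variable {d : ℕ} {ν : Measure ℝ} [IsProbabilityMeasure ν] {l : ℝ}
  {M : EuclideanSpace ℝ (Fin d) → ℝ}

theorem Dist.exists_timeConstant (h : Dist ν l) : ∃ μ, TimeConstant d ν μ := by
  obtain ⟨M, hM⟩ := h.exists_isTC (d := d)
  exact ⟨M, fun u _ => hM u, fun c hc x => IsTC.smul h hM hc x⟩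

theorem TimeConstant.isTC (h : Dist ν l) (hM : TimeConstant d ν M) : IsTC ν M := by
  obtain ⟨M', hM'⟩ := h.exists_isTC (d := d)
  have heq : M = M' := by
    funext x
    by_cases hx : x = 0
    · have h1 := hM.2 0 le_rfl 0
      have h2 := IsTC.smul h hM' le_rfl (0 : EuclideanSpace ℝ (Fin d))
      rw [zero_smul, zero_mul] at h1 h2
      rw [hx, h1, h2]
    · have hn : 0 < ‖x‖ := norm_pos_iff.2 hx
      have hu : ‖‖x‖⁻¹ • x‖ = 1 := by
        rw [norm_smul, Real.norm_eq_abs, abs_of_pos (inv_pos.2 hn), inv_mul_cancel₀ hn.ne']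
      have h1 : M (‖x‖⁻¹ • x) = M' (‖x‖⁻¹ • x) := tendsto_nhds_unique (hM.1 _ hu) (hM' _)
      have h2 : x = ‖x‖ • (‖x‖⁻¹ • x) := by
        rw [smul_smul, mul_inv_cancel₀ hn.ne', one_smul]
      rw [h2, hM.2 _ hn.le, IsTC.smul h hM' hn.le, h1]
  rw [heq]
  exact hM'

theorem IsTC.nm (h : Dist ν l) (hM : IsTC ν M) (hl : 0 < l) : Nm M l (mean ν) :=
  ⟨hl, lt_of_lt_of_le hl h.le_mean, IsTC.add h hM, fun _ hc x => IsTC.smul h hM hc x, IsTC.ge h hM,
    IsTC.le h hM⟩

theorem l1_single (j : Fin d) : l1 (EuclideanSpace.single j (1 : ℝ)) = 1 := by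
  unfold l1
  rw [Finset.sum_eq_single j]
  · simp
  · intro i _ hi
    simp [hi]
  · simp

theorem IsTC.continuous (h : Dist ν l) (hM : IsTC ν M) : Continuous M := by
  have hlip : ∀ x y, |M x - M y| ≤ (mean ν * d) * ‖x - y‖ := by
    intro x y
    have h1 := IsTC.lip h hM x y
    have h2 := IsTC.lip h hM y x
    have h5 := mul_le_mul_of_nonneg_left (l1_le_norm (x - y)) h.mean_nonneg
    have h6 := mul_le_mul_of_nonneg_left (l1_le_norm (y - x)) h.mean_nonneg
    rw [norm_sub_rev y x] at h6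
    rw [abs_le]
    constructor <;> linarith
  have hb : 0 ≤ mean ν * d := mul_nonneg h.mean_nonneg (Nat.cast_nonneg d)
  have : LipschitzWith (Real.toNNReal (mean ν * d)) M := by
    refine LipschitzWith.of_dist_le_mul fun x y => ?_
    rw [Real.dist_eq, dist_eq_norm, Real.coe_toNNReal _ hb]
    exact hlip x y
  exact this.continuous

/-- a positive time constant is a norm -/
theorem IsTC.nm' (h : Dist ν l) (hM : IsTC ν M) (hpos : ∀ u, ‖u‖ = 1 → 0 < M u) (j : Fin d) :
    ∃ a, Nm M a (mean ν) := by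
  have hne : (sphere (0 : EuclideanSpace ℝ (Fin d)) 1).Nonempty :=
    ⟨EuclideanSpace.single j (1 : ℝ), by simp⟩
  obtain ⟨v, hv, hmin⟩ := (isCompact_sphere (0 : EuclideanSpace ℝ (Fin d)) 1).exists_isMinOn hne
    (IsTC.continuous h hM).continuousOn
  have hv1 : ‖v‖ = 1 := by simpa using hv
  have hv0 : 0 < M v := hpos v hv1
  have hd : (0 : ℝ) < d := by exact_mod_cast (Fin.pos_iff_nonempty.2 ⟨j⟩)
  have hm : 0 < mean ν := by
    have h1 := IsTC.le h hM (EuclideanSpace.single j (1 : ℝ))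
    rw [l1_single, mul_one] at h1
    exact lt_of_lt_of_le (hpos _ (by simp)) h1
  refine ⟨M v / d, div_pos hv0 hd, hm, IsTC.add h hM, fun _ hc x => IsTC.smul h hM hc x, ?_,
    IsTC.le h hM⟩
  intro x
  by_cases hx : x = 0
  · rw [hx]
    have h1 := IsTC.smul h hM le_rfl (0 : EuclideanSpace ℝ (Fin d))
    rw [zero_smul, zero_mul] at h1
    rw [h1]
    simp [l1]
  · have hn : 0 < ‖x‖ := norm_pos_iff.2 hx
    have hu : ‖‖x‖⁻¹ • x‖ = 1 := by
      rw [norm_smul, Real.norm_eq_abs, abs_of_pos (inv_pos.2 hn), inv_mul_cancel₀ hn.ne']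
    have h1 : M v ≤ M (‖x‖⁻¹ • x) := hmin (by simpa using hu)
    have h2 : x = ‖x‖ • (‖x‖⁻¹ • x) := by
      rw [smul_smul, mul_inv_cancel₀ hn.ne', one_smul]
    have h3 : M x = ‖x‖ * M (‖x‖⁻¹ • x) := by
      conv_lhs => rw [h2]
      rw [IsTC.smul h hM hn.le]
    have h4 : M v * ‖x‖ ≤ M x := by
      rw [h3, mul_comm]
      exact mul_le_mul_of_nonneg_left h1 hn.le
    have h5 := l1_le_norm x
    calc M v / d * l1 x ≤ M v / d * (d * ‖x‖) := mul_le_mul_of_nonneg_left h5 (by positivity)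
      _ = M v * ‖x‖ := by field_simp
      _ ≤ M x := h4

variable {a b : ℝ}

/-- the unit ball contains the diamond -/
theorem Nm.diamond (h : Nm M a b) (hsp : ∀ ε π x, M (sp ε π x) = M x) (j : Fin d) :
    Nm M a (M (EuclideanSpace.single j (1 : ℝ))) := by
  refine ⟨h.a0, h.pos (by simp), h.add, h.smul, h.ge, fun x => ?_⟩
  have hone : ∀ i : Fin d, ∀ c : ℝ, M (EuclideanSpace.single i c) =
      |c| * M (EuclideanSpace.single j (1 : ℝ)) := by
    intro i c
    set ε : Fin d → ℤˣ := fun _ => if c < 0 then -1 else 1 with hε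
    have h1 : EuclideanSpace.single i c =
        |c| • sp ε (Equiv.swap i j) (EuclideanSpace.single j (1 : ℝ)) := by
      ext k
      rw [PiLp.smul_apply, sp_apply, smul_eq_mul]
      by_cases hk : k = i
      · subst hk
        rw [Equiv.swap_apply_left]
        simp only [hε, EuclideanSpace.single_apply, if_true, mul_one]
        split_ifs with h0
        · rw [abs_of_neg h0]
          push_cast
          ring
        · rw [abs_of_nonneg (not_lt.1 h0)]
          push_cast
          ring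
      · have h2 : (Equiv.swap i j) k ≠ j := by
          intro h3
          apply hk
          have h4 := congrArg (Equiv.swap i j) h3
          rwa [Equiv.swap_apply_self, Equiv.swap_apply_right] at h4
        simp [hk, h2]
    rw [h1, h.smul _ (abs_nonneg c), hsp]
  have hx : x = ∑ i, EuclideanSpace.single i (x i) := by
    ext k
    simp
  calc M x = M (∑ i, EuclideanSpace.single i (x i)) := by rw [← hx]
    _ ≤ ∑ i, M (EuclideanSpace.single i (x i)) :=
      Finset.le_sum_of_subadditive M h.zero.le h.add _ _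
    _ = M (EuclideanSpace.single j (1 : ℝ)) * l1 x := by
      rw [Finset.sum_congr rfl fun i _ => hone i (x i), ← Finset.sum_mul, mul_comm]
      rfl

end Pool.Agent.Lib.MP_a83deb_pr
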