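import Pool.Agent.Lib.MP_a83deb_pr.Upper2

/-!
# High dimension
-/

set_option autoImplicit false

open MeasureTheory ProbabilityTheory Filter Topology

namespace Pool.Agent.Lib.MP_a83deb_pr

variable {d : ℕ} {ν : Measure ℝ} [IsProbabilityMeasure ν] {l : ℝ}
  {M : EuclideanSpace ℝ (Fin d) → ℝ}

theorem Dist.et_nsmul (h : Dist ν l) (x : Fin d → ℤ) (n : ℕ) : et d ν (n • x) ≤ n * et d ν x := by
  induction n with
  | zero =>
    have h1 := h.et_le (0 : Fin d → ℤ)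
    have h2 : n1 (0 : Fin d → ℤ) = 0 := by simp [n1]
    rw [h2] at h1
    simpa using h1
  | succ n ih =>
    rw [succ_nsmul]
    have h1 := h.et_add (n • x) x
    push_cast
    linarith

theorem IsTC.le_et (h : Dist ν l) (hM : IsTC ν M) (x : Fin d → ℤ) :
    M (WithLp.toLp 2 fun i => (x i : ℝ)) ≤ et d ν x := by
  refine le_of_tendsto (hM _) ?_
  filter_upwards [eventually_gt_atTop 0] with n hn
  have hn' : (0 : ℝ) < n := by exact_mod_cast hn
  have h1 : rnd ((n : ℝ) • (WithLp.toLp 2 fun i => (x i : ℝ) : EuclideanSpace ℝ (Fin d))) = n • x := by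
    funext i
    show round ((n : ℝ) * (x i : ℝ)) = (n • x) i
    have h2 : (n : ℝ) * (x i : ℝ) = (((n : ℤ) * x i : ℤ) : ℝ) := by push_cast; ring
    rw [h2, round_intCast]
    simp
  rw [h1, div_le_iff₀ hn']
  have := h.et_nsmul x n
  linarith

theorem IsTC.upper (h : Dist ν l) (hM : IsTC ν M) (hd : 2 ≤ d) (j : Fin d) {L : ℕ} (hL : 1 ≤ L)
    {c : ℝ} (hc : 0 ≤ c) : M (EuclideanSpace.single j (1 : ℝ)) ≤
      (1 + 2 / L) * (c + mean ν * (1 - ν.real (Set.Iic c) ^ (L + 2)) ^ (d - 2)) := by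
  have h1 := IsTC.le_et h hM (Pi.single j (L : ℤ))
  have h2 := h.upper hd j L hc
  have hL' : (0 : ℝ) < L := by exact_mod_cast hL
  have h3 : (WithLp.toLp 2 fun i => (((Pi.single j (L : ℤ) : Fin d → ℤ) i : ℤ) : ℝ) :
      EuclideanSpace ℝ (Fin d)) = (L : ℝ) • EuclideanSpace.single j (1 : ℝ) := by
    ext i
    by_cases hi : i = j
    · subst hi
      simp
    · simp [hi]
  rw [h3, IsTC.smul h hM hL'.le] at h1
  have h4 : (L : ℝ) * M (EuclideanSpace.single j (1 : ℝ)) ≤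
      (L : ℝ) * ((1 + 2 / L) * (c + mean ν * (1 - ν.real (Set.Iic c) ^ (L + 2)) ^ (d - 2))) := by
    calc _ ≤ (L + 2) * c + (L + 2) * mean ν * (1 - ν.real (Set.Iic c) ^ (L + 2)) ^ (d - 2) :=
          h1.trans h2
      _ = _ := by
          field_simp
  exact le_of_mul_le_mul_left h4 hL'

theorem high (h : Dist ν l) (hl : 0 < l) (hinf : ∀ c, l < c → 0 < ν (Set.Iic c)) {δ : ℝ}
    (hδ : 0 < δ) : ∃ d₀ : ℕ, ∀ d, d₀ ≤ d → ∀ M : EuclideanSpace ℝ (Fin d) → ℝ, IsTC ν M →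
      ∀ j, M (EuclideanSpace.single j (1 : ℝ)) ≤ (1 + δ) * l := by
  set ε : ℝ := min δ 1 with hε
  have hε0 : 0 < ε := lt_min hδ one_pos
  have hε1 : ε ≤ 1 := min_le_right _ _
  have hεδ : ε ≤ δ := min_le_left _ _
  set c : ℝ := l * (1 + ε / 4) with hc
  have hlc : l < c := by
    rw [hc]
    nlinarith
  have hc0 : 0 ≤ c := by linarith
  obtain ⟨L, hL⟩ := exists_nat_gt (8 / ε)
  have hL0 : (0 : ℝ) < L := lt_trans (by positivity) hL
  have hL1 : 1 ≤ L := by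
    have : (0 : ℝ) < L := hL0
    have : 0 < L := by exact_mod_cast this
    exact this
  have hL2 : 2 / (L : ℝ) ≤ ε / 4 := by
    rw [div_le_iff₀ hL0]
    rw [div_lt_iff₀ hε0] at hL
    linarith
  set q := ν.real (Set.Iic c) with hq
  have hq0 : 0 < q := ENNReal.toReal_pos (hinf c hlc).ne' (measure_ne_top _ _)
  have hq1 : q ≤ 1 := measureReal_le_one
  set r := 1 - q ^ (L + 2) with hr
  have hr1 : r < 1 := by
    rw [hr]
    have : 0 < q ^ (L + 2) := by positivity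
    linarith
  have hr0 : 0 ≤ r := by
    rw [hr]
    have := pow_le_one₀ (n := L + 2) hq0.le hq1
    linarith
  have hm := h.mean_nonneg
  have hlim : Tendsto (fun n : ℕ => mean ν * r ^ n) atTop (𝓝 (mean ν * 0)) :=
    (tendsto_pow_atTop_nhds_zero_of_lt_one hr0 hr1).const_mul _
  rw [mul_zero] at hlim
  obtain ⟨n₀, hn₀⟩ := eventually_atTop.1 (hlim.eventually (gt_mem_nhds (show (0 : ℝ) < l * (ε / 4) by
    positivity)))
  refine ⟨n₀ + 2, fun d hd M hM j => ?_⟩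
  have h1 := IsTC.upper h hM (by omega) j hL1 hc0
  have h2 : mean ν * r ^ (d - 2) < l * (ε / 4) := hn₀ (d - 2) (by omega)
  have h3 : (0 : ℝ) ≤ 1 + 2 / (L : ℝ) := by positivity
  have h4 : c + mean ν * r ^ (d - 2) ≤ l * (1 + ε / 2) := by
    rw [hc]
    linarith
  have h5 : 0 ≤ l * (1 + ε / 2) := by positivity
  calc M (EuclideanSpace.single j (1 : ℝ)) ≤ (1 + 2 / (L : ℝ)) * (c + mean ν * r ^ (d - 2)) := h1
    _ ≤ (1 + 2 / (L : ℝ)) * (l * (1 + ε / 2)) := mul_le_mul_of_nonneg_left h4 h3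
    _ ≤ (1 + ε / 4) * (l * (1 + ε / 2)) := mul_le_mul_of_nonneg_right (by linarith) h5
    _ ≤ (1 + ε) * l := by nlinarith [mul_pos hl hε0, mul_nonneg hl.le (mul_nonneg hε0.le (sub_nonneg.2 hε1))]
    _ ≤ (1 + δ) * l := mul_le_mul_of_nonneg_right (by linarith) hl.le

end Pool.Agent.Lib.MP_a83deb_pr
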