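import Pool.Agent.Lib.MP_a83deb_pr.Mean

/-!
# The time constant
-/

set_option autoImplicit false

open MeasureTheory Filter Topology

namespace Pool.Agent.Lib.MP_a83deb_pr

variable {d : ℕ}

/-- the `ℓ¹` norm -/
def l1 (x : EuclideanSpace ℝ (Fin d)) : ℝ := ∑ i, |x i|

theorem l1_nonneg (x : EuclideanSpace ℝ (Fin d)) : 0 ≤ l1 x := Finset.sum_nonneg fun _ _ => abs_nonneg _

theorem n1_cast (p : Fin d → ℤ) : (n1 p : ℝ) = ∑ i, |(p i : ℝ)| := by
  unfold n1
  push_cast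
  rfl

theorem rnd_add (x y : EuclideanSpace ℝ (Fin d)) :
    (n1 (rnd (x + y) - (rnd x + rnd y)) : ℝ) ≤ 2 * d := by
  rw [n1_cast]
  have h : ∀ i ∈ Finset.univ, |((rnd (x + y) - (rnd x + rnd y)) i : ℝ)| ≤ 2 := by
    intro i _
    simp only [rnd, Pi.sub_apply, Pi.add_apply, PiLp.add_apply]
    push_cast
    have h1 := abs_sub_round (x i + y i)
    have h2 := abs_sub_round (x i)
    have h3 := abs_sub_round (y i)
    rw [abs_le] at h1 h2 h3 ⊢
    constructor <;> linarith [h1.1, h1.2, h2.1, h2.2, h3.1, h3.2]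
  calc _ ≤ ∑ _i : Fin d, (2 : ℝ) := Finset.sum_le_sum h
    _ = 2 * d := by simp [mul_comm]

theorem rnd_sub (x y : EuclideanSpace ℝ (Fin d)) :
    (n1 (rnd x - rnd y) : ℝ) ≤ l1 (x - y) + d := by
  rw [n1_cast]
  have h : ∀ i ∈ Finset.univ, |((rnd x - rnd y) i : ℝ)| ≤ |(x - y) i| + 1 := by
    intro i _
    simp only [rnd, Pi.sub_apply, PiLp.sub_apply]
    push_cast
    have h2 := abs_sub_round (x i)
    have h3 := abs_sub_round (y i)
    have h4 := neg_abs_le (x i - y i)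
    have h5 := le_abs_self (x i - y i)
    rw [abs_le] at h2 h3
    rw [abs_le]
    constructor <;> linarith [h2.1, h2.2, h3.1, h3.2]
  calc _ ≤ ∑ i : Fin d, (|(x - y) i| + 1) := Finset.sum_le_sum h
    _ = l1 (x - y) + d := by
      rw [Finset.sum_add_distrib]
      simp [l1]

theorem n1_rnd_le (x : EuclideanSpace ℝ (Fin d)) : (n1 (rnd x) : ℝ) ≤ l1 x + d := by
  have h := rnd_sub x 0
  have h1 : rnd (0 : EuclideanSpace ℝ (Fin d)) = 0 := by
    funext i
    simp [rnd]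
  rwa [h1, sub_zero, sub_zero] at h

theorem le_n1_rnd (x : EuclideanSpace ℝ (Fin d)) : l1 x ≤ (n1 (rnd x) : ℝ) + d := by
  rw [n1_cast]
  have h : ∀ i ∈ Finset.univ, |x i| ≤ |(rnd x i : ℝ)| + 1 := by
    intro i _
    simp only [rnd]
    have h2 := abs_sub_round (x i)
    have h3 := abs_sub_abs_le_abs_sub (x i) (round (x i) : ℝ)
    linarith
  calc l1 x ≤ ∑ i : Fin d, (|(rnd x i : ℝ)| + 1) := Finset.sum_le_sum h
    _ = _ := by
      rw [Finset.sum_add_distrib]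
      simp

theorem l1_smul (c : ℝ) (x : EuclideanSpace ℝ (Fin d)) : l1 (c • x) = |c| * l1 x := by
  simp [l1, abs_mul, Finset.mul_sum]

variable {ν : Measure ℝ} [IsProbabilityMeasure ν] {l : ℝ}

theorem Dist.exists_lim (h : Dist ν l) (x : EuclideanSpace ℝ (Fin d)) :
    ∃ L : ℝ, Tendsto (fun n : ℕ => et d ν (rnd ((n : ℝ) • x)) / n) atTop (𝓝 L) := by
  set u : ℕ → ℝ := fun n => et d ν (rnd ((n : ℝ) • x)) + mean ν * (2 * d) with hu
  have hm := h.mean_nonneg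
  have hsub : Subadditive u := by
    intro n k
    simp only [hu]
    have h1 : ((n + k : ℕ) : ℝ) • x = (n : ℝ) • x + (k : ℝ) • x := by
      push_cast
      rw [add_smul]
    rw [h1]
    have h2 := h.et_lip (rnd ((n : ℝ) • x + (k : ℝ) • x)) (rnd ((n : ℝ) • x) + rnd ((k : ℝ) • x))
    have h3 := h.et_add (rnd ((n : ℝ) • x)) (rnd ((k : ℝ) • x))
    have h4 := mul_le_mul_of_nonneg_left (rnd_add ((n : ℝ) • x) ((k : ℝ) • x)) hm
    linarith
  have hb : BddBelow (Set.range fun n => u n / n) := by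
    refine ⟨0, ?_⟩
    rintro _ ⟨n, rfl⟩
    have h1 := h.le_et (d := d) (rnd ((n : ℝ) • x))
    have h2 : (0 : ℝ) ≤ l * (n1 (rnd ((n : ℝ) • x)) : ℝ) :=
      mul_nonneg h.nn (by exact_mod_cast n1_nonneg _)
    have h3 : 0 ≤ u n := by
      simp only [hu]
      have : 0 ≤ mean ν * (2 * d) := mul_nonneg hm (by positivity)
      linarith
    positivity
  have h1 := hsub.tendsto_lim hb
  have h2 : Tendsto (fun n : ℕ => mean ν * (2 * d) / (n : ℝ)) atTop (𝓝 0) :=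
    tendsto_const_div_atTop_nhds_zero_nat _
  refine ⟨hsub.lim - 0, (h1.sub h2).congr fun n => ?_⟩
  simp only [hu]
  ring

/-- `M` is the time constant on `ℝ^d`: the limit of `E T(0, n x) / n` -/
def IsTC (ν : Measure ℝ) [IsProbabilityMeasure ν] (M : EuclideanSpace ℝ (Fin d) → ℝ) : Prop :=
  ∀ x, Tendsto (fun n : ℕ => et d ν (rnd ((n : ℝ) • x)) / n) atTop (𝓝 (M x))

theorem Dist.exists_isTC (h : Dist ν l) : ∃ M : EuclideanSpace ℝ (Fin d) → ℝ, IsTC ν M := by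
  choose M hM using fun x : EuclideanSpace ℝ (Fin d) => h.exists_lim x
  exact ⟨M, hM⟩

variable {M : EuclideanSpace ℝ (Fin d) → ℝ}

theorem tendsto_C (C : ℝ) : Tendsto (fun n : ℕ => C / (n : ℝ)) atTop (𝓝 0) :=
  tendsto_const_div_atTop_nhds_zero_nat _

theorem IsTC.le_of (hM : IsTC ν M) {x y : EuclideanSpace ℝ (Fin d)} (C : ℝ)
    (h : ∀ n : ℕ, et d ν (rnd ((n : ℝ) • x)) ≤ et d ν (rnd ((n : ℝ) • y)) + C) : M x ≤ M y := by
  have h1 := (hM y).add (tendsto_C C)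
  rw [add_zero] at h1
  refine le_of_tendsto_of_tendsto' (hM x) h1 fun n => ?_
  rw [← add_div]
  exact div_le_div_of_nonneg_right (h n) (Nat.cast_nonneg n)

theorem IsTC.ge (h : Dist ν l) (hM : IsTC ν M) (x : EuclideanSpace ℝ (Fin d)) : l * l1 x ≤ M x := by
  have h1 := (hM x).add (tendsto_C (l * d))
  rw [add_zero] at h1
  refine ge_of_tendsto h1 ?_
  filter_upwards [eventually_gt_atTop 0] with n hn
  have hn' : (0 : ℝ) < n := by exact_mod_cast hn
  rw [← add_div, le_div_iff₀ hn']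
  have h2 := h.le_et (d := d) (rnd ((n : ℝ) • x))
  have h3 := mul_le_mul_of_nonneg_left (le_n1_rnd ((n : ℝ) • x)) h.nn
  rw [l1_smul, abs_of_pos hn'] at h3
  linarith

theorem IsTC.le (h : Dist ν l) (hM : IsTC ν M) (x : EuclideanSpace ℝ (Fin d)) :
    M x ≤ mean ν * l1 x := by
  have hm := h.mean_nonneg
  have h1 : Tendsto (fun n : ℕ => mean ν * l1 x + mean ν * d / (n : ℝ)) atTop (𝓝 (mean ν * l1 x + 0)) :=
    tendsto_const_nhds.add (tendsto_C _)
  rw [add_zero] at h1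
  refine le_of_tendsto_of_tendsto (hM x) h1 ?_
  filter_upwards [eventually_gt_atTop 0] with n hn
  have hn' : (0 : ℝ) < n := by exact_mod_cast hn
  have h2 := h.et_le (d := d) (rnd ((n : ℝ) • x))
  have h3 := mul_le_mul_of_nonneg_left (n1_rnd_le ((n : ℝ) • x)) hm
  rw [l1_smul, abs_of_pos hn'] at h3
  rw [div_le_iff₀ hn', add_mul, div_mul_cancel₀ _ hn'.ne']
  linarith

theorem IsTC.add (h : Dist ν l) (hM : IsTC ν M) (x y : EuclideanSpace ℝ (Fin d)) :
    M (x + y) ≤ M x + M y := by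
  have hm := h.mean_nonneg
  have h1 := ((hM x).add (hM y)).add (tendsto_C (mean ν * (2 * d)))
  rw [add_zero] at h1
  refine le_of_tendsto_of_tendsto' (hM (x + y)) h1 fun n => ?_
  rw [← add_div, ← add_div]
  refine div_le_div_of_nonneg_right ?_ (Nat.cast_nonneg n)
  rw [smul_add]
  have h2 := h.et_lip (rnd ((n : ℝ) • x + (n : ℝ) • y)) (rnd ((n : ℝ) • x) + rnd ((n : ℝ) • y))
  have h3 := h.et_add (rnd ((n : ℝ) • x)) (rnd ((n : ℝ) • y))
  have h4 := mul_le_mul_of_nonneg_left (rnd_add ((n : ℝ) • x) ((n : ℝ) • y)) hm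
  linarith

theorem IsTC.lip (h : Dist ν l) (hM : IsTC ν M) (x y : EuclideanSpace ℝ (Fin d)) :
    M x ≤ M y + mean ν * l1 (x - y) := by
  have h1 := IsTC.add h hM y (x - y)
  have h2 := IsTC.le h hM (x - y)
  rw [add_sub_cancel] at h1
  linarith

theorem IsTC.smul (h : Dist ν l) (hM : IsTC ν M) {c : ℝ} (hc : 0 ≤ c)
    (x : EuclideanSpace ℝ (Fin d)) : M (c • x) = c * M x := by
  have hm := h.mean_nonneg
  rcases hc.eq_or_lt with rfl | hc'
  · rw [zero_smul, zero_mul]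
    have h1 := IsTC.le h hM (0 : EuclideanSpace ℝ (Fin d))
    have h2 := IsTC.ge h hM (0 : EuclideanSpace ℝ (Fin d))
    have h3 : l1 (0 : EuclideanSpace ℝ (Fin d)) = 0 := by simp [l1]
    rw [h3, mul_zero] at h1 h2
    exact le_antisymm h1 h2
  have hk : Tendsto (fun n : ℕ => ⌊c * (n : ℝ)⌋₊) atTop atTop :=
    tendsto_nat_floor_atTop.comp (Tendsto.const_mul_atTop hc' tendsto_natCast_atTop_atTop)
  have h1 : Tendsto (fun n : ℕ => et d ν (rnd (((⌊c * (n : ℝ)⌋₊ : ℕ) : ℝ) • x)) /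
      ((⌊c * (n : ℝ)⌋₊ : ℕ) : ℝ)) atTop (𝓝 (M x)) := (hM x).comp hk
  have h2 : Tendsto (fun n : ℕ => ((⌊c * (n : ℝ)⌋₊ : ℕ) : ℝ) / (n : ℝ)) atTop (𝓝 c) :=
    (tendsto_nat_floor_mul_div_atTop hc).comp tendsto_natCast_atTop_atTop
  have h3 := h1.mul h2
  have h4 : Tendsto (fun n : ℕ => et d ν (rnd (((⌊c * (n : ℝ)⌋₊ : ℕ) : ℝ) • x)) / (n : ℝ)) atTop
      (𝓝 (M x * c)) := by
    refine h3.congr' ?_
    filter_upwards [hk.eventually (eventually_gt_atTop 0)] with n hn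
    have hn' : (0 : ℝ) < ((⌊c * (n : ℝ)⌋₊ : ℕ) : ℝ) := by exact_mod_cast hn
    rw [div_mul_div_comm, mul_comm ((⌊c * (n : ℝ)⌋₊ : ℕ) : ℝ) (n : ℝ),
      mul_div_mul_right _ _ hn'.ne']
  have herr : ∀ n : ℕ, l1 ((n : ℝ) • (c • x) - ((⌊c * (n : ℝ)⌋₊ : ℕ) : ℝ) • x) ≤ l1 x := by
    intro n
    have e : (n : ℝ) • (c • x) - ((⌊c * (n : ℝ)⌋₊ : ℕ) : ℝ) • x =
        (c * n - ((⌊c * (n : ℝ)⌋₊ : ℕ) : ℝ)) • x := by
      rw [smul_smul, sub_smul, mul_comm (n : ℝ) c]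
    rw [e, l1_smul]
    have h5 : 0 ≤ c * (n : ℝ) := by positivity
    have h6 := Nat.floor_le h5
    have h7 := Nat.lt_floor_add_one (c * (n : ℝ))
    have h8 : |c * n - ((⌊c * (n : ℝ)⌋₊ : ℕ) : ℝ)| ≤ 1 := by
      rw [abs_le]
      constructor <;> linarith
    calc _ ≤ 1 * l1 x := mul_le_mul_of_nonneg_right h8 (l1_nonneg x)
      _ = l1 x := one_mul _
  have hcomm : ∀ z w : EuclideanSpace ℝ (Fin d), l1 (z - w) = l1 (w - z) := fun z w => by
    simp only [l1, PiLp.sub_apply]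
    exact Finset.sum_congr rfl fun i _ => abs_sub_comm _ _
  set C := mean ν * (l1 x + d) with hC
  have hle : M (c • x) ≤ M x * c := by
    have h5 := h4.add (tendsto_C C)
    rw [add_zero] at h5
    refine le_of_tendsto_of_tendsto' (hM (c • x)) h5 fun n => ?_
    rw [← add_div]
    refine div_le_div_of_nonneg_right ?_ (Nat.cast_nonneg n)
    refine (h.et_lip _ (rnd (((⌊c * (n : ℝ)⌋₊ : ℕ) : ℝ) • x))).trans ?_
    have h6 := (rnd_sub ((n : ℝ) • (c • x)) (((⌊c * (n : ℝ)⌋₊ : ℕ) : ℝ) • x)).trans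
      (add_le_add_left (herr n) _)
    have h7 := mul_le_mul_of_nonneg_left h6 hm
    linarith
  have hge : M x * c ≤ M (c • x) := by
    have h5 := (hM (c • x)).add (tendsto_C C)
    rw [add_zero] at h5
    refine le_of_tendsto_of_tendsto' h4 h5 fun n => ?_
    rw [← add_div]
    refine div_le_div_of_nonneg_right ?_ (Nat.cast_nonneg n)
    refine (h.et_lip _ (rnd ((n : ℝ) • (c • x)))).trans ?_
    have h6 := (rnd_sub (((⌊c * (n : ℝ)⌋₊ : ℕ) : ℝ) • x) ((n : ℝ) • (c • x)))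
    rw [hcomm] at h6
    have h7 := mul_le_mul_of_nonneg_left (h6.trans (add_le_add_left (herr n) _)) hm
    linarith
  rw [mul_comm]
  exact le_antisymm hle hge

/-- signed permutation of the coordinates -/
def sp (ε : Fin d → ℤˣ) (π : Equiv.Perm (Fin d)) (x : EuclideanSpace ℝ (Fin d)) :
    EuclideanSpace ℝ (Fin d) := WithLp.toLp 2 fun i => ((ε i : ℤ) : ℝ) * x (π i)

theorem sp_apply (ε : Fin d → ℤˣ) (π : Equiv.Perm (Fin d)) (x : EuclideanSpace ℝ (Fin d)) (i : Fin d) :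
    sp ε π x i = ((ε i : ℤ) : ℝ) * x (π i) := rfl

theorem unit_cases (e : ℤˣ) : ((e : ℤ) : ℝ) = 1 ∨ ((e : ℤ) : ℝ) = -1 := by
  rcases Int.units_eq_one_or e with h | h
  · left; simp [h]
  · right; simp [h]

theorem IsTC.sp (h : Dist ν l) (hM : IsTC ν M) (ε : Fin d → ℤˣ) (π : Equiv.Perm (Fin d))
    (x : EuclideanSpace ℝ (Fin d)) : M (sp ε π x) = M x := by
  have hm := h.mean_nonneg
  have herr : ∀ n : ℕ, (n1 (rnd ((n : ℝ) • MP_a83deb_pr.sp ε π x) -
      fun i => ε i * rnd ((n : ℝ) • x) (π i)) : ℝ) ≤ d := by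
    intro n
    rw [n1_cast]
    have h1 : ∀ i ∈ Finset.univ, |((rnd ((n : ℝ) • MP_a83deb_pr.sp ε π x) -
        fun i => ε i * rnd ((n : ℝ) • x) (π i)) i : ℝ)| ≤ 1 := by
      intro i _
      simp only [rnd, Pi.sub_apply, PiLp.smul_apply, smul_eq_mul, sp_apply]
      push_cast
      have h2 := abs_sub_round ((n : ℝ) * (((ε i : ℤ) : ℝ) * x (π i)))
      have h3 := abs_sub_round ((n : ℝ) * x (π i))
      rw [abs_le] at h2 h3 ⊢
      rcases unit_cases (ε i) with h4 | h4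
      · rw [h4] at h2 ⊢
        simp only [one_mul] at h2 ⊢
        constructor <;> linarith [h2.1, h2.2, h3.1, h3.2]
      · rw [h4] at h2 ⊢
        constructor <;> linarith [h2.1, h2.2, h3.1, h3.2]
    calc _ ≤ ∑ _i : Fin d, (1 : ℝ) := Finset.sum_le_sum h1
      _ = d := by simp
  have hn1neg : ∀ p q : Fin d → ℤ, n1 (p - q) = n1 (q - p) := by
    intro p q
    unfold n1
    exact Finset.sum_congr rfl fun i _ => by
      simp only [Pi.sub_apply]
      exact abs_sub_comm _ _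
  refine le_antisymm (hM.le_of (mean ν * d) fun n => ?_) (hM.le_of (mean ν * d) fun n => ?_)
  · have h1 := h.et_lip (rnd ((n : ℝ) • MP_a83deb_pr.sp ε π x)) (fun i => ε i * rnd ((n : ℝ) • x) (π i))
    rw [h.et_sperm] at h1
    have h2 := mul_le_mul_of_nonneg_left (herr n) hm
    linarith
  · have h1 := h.et_lip (fun i => ε i * rnd ((n : ℝ) • x) (π i)) (rnd ((n : ℝ) • MP_a83deb_pr.sp ε π x))
    rw [h.et_sperm, hn1neg] at h1
    have h2 := mul_le_mul_of_nonneg_left (herr n) hm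
    linarith

end Pool.Agent.Lib.MP_a83deb_pr
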