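import Pool.Agent.Lib.MP_a83deb_pr.Walks

/-!
# Expected passage times
-/

set_option autoImplicit false

open MeasureTheory

namespace Pool.Agent.Lib.MP_a83deb_pr

variable {d : ℕ}

/-- distributions with values `≥ l ≥ 0` and finite mean -/
structure Dist (ν : Measure ℝ) (l : ℝ) : Prop where
  nn : 0 ≤ l
  ge : ∀ᵐ x ∂ν, l ≤ x
  int : Integrable (fun x : ℝ => x) ν

variable {ν : Measure ℝ} [IsProbabilityMeasure ν] {l : ℝ}

instance : IsProbabilityMeasure (law d ν) := by
  unfold law
  infer_instance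

theorem mp_eval (e : Sym2 (Fin d → ℤ)) : MeasurePreserving (Function.eval e) (law d ν) ν :=
  measurePreserving_eval_infinitePi (fun _ : Sym2 (Fin d → ℤ) => ν) e

theorem Dist.ae (h : Dist ν l) : ∀ᵐ τ ∂law d ν, ∀ e, l ≤ τ e :=
  ae_all_iff.2 fun e => (mp_eval (d := d) (ν := ν) e).quasiMeasurePreserving.ae h.ge

theorem Dist.ae0 (h : Dist ν l) : ∀ᵐ τ ∂law d ν, ∀ e, 0 ≤ τ e := by
  filter_upwards [h.ae (d := d)] with τ hτ e using h.nn.trans (hτ e)

/-- the mean -/
noncomputable def mean (ν : Measure ℝ) : ℝ := ∫ x, x ∂ν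

theorem Dist.le_mean (h : Dist ν l) : l ≤ mean ν := by
  have h1 : ∫ _x : ℝ, l ∂ν ≤ ∫ x : ℝ, x ∂ν := integral_mono_ae (integrable_const l) h.int h.ge
  simpa [mean] using h1

theorem Dist.mean_nonneg (h : Dist ν l) : 0 ≤ mean ν := h.nn.trans h.le_mean

theorem Dist.int_eval (h : Dist ν l) (e : Sym2 (Fin d → ℤ)) :
    Integrable (fun τ : Sym2 (Fin d → ℤ) → ℝ => τ e) (law d ν) :=
  (mp_eval (d := d) (ν := ν) e).integrable_comp_of_integrable h.int

theorem integral_eval (e : Sym2 (Fin d → ℤ)) : ∫ τ, τ e ∂law d ν = mean ν := by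
  have h := MeasureTheory.integral_map (μ := law d ν)
    (mp_eval (d := d) (ν := ν) e).measurable.aemeasurable
    (f := fun x : ℝ => x) aestronglyMeasurable_id
  rw [(mp_eval (d := d) (ν := ν) e).map_eq] at h
  exact h.symm

theorem Dist.int_passage (h : Dist ν l) {x y : Fin d → ℤ} (w : (lattice d).Walk x y) :
    Integrable (fun τ => passage τ w) (law d ν) := by
  induction w with
  | nil => simp only [passage_nil]; exact integrable_const _
  | cons h' w ih =>
    simp only [passage_cons]
    exact (h.int_eval _).add ih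

theorem Dist.integral_passage (h : Dist ν l) {x y : Fin d → ℤ} (w : (lattice d).Walk x y) :
    ∫ τ, passage τ w ∂law d ν = mean ν * w.length := by
  induction w with
  | nil => simp [passage_nil]
  | cons h' w ih =>
    simp only [passage_cons]
    rw [integral_add (h.int_eval _) (h.int_passage _), integral_eval, ih,
      SimpleGraph.Walk.length_cons]
    push_cast
    ring

theorem Dist.int_T (h : Dist ν l) (x y : Fin d → ℤ) : Integrable (fun τ => T τ x y) (law d ν) := by
  obtain ⟨w, -⟩ := exists_walk' x y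
  refine (h.int_passage w).mono' (measurable_T x y).aestronglyMeasurable ?_
  filter_upwards [h.ae0 (d := d)] with τ hτ
  rw [Real.norm_eq_abs, abs_of_nonneg (T_nonneg hτ x y)]
  exact T_le hτ w

theorem Dist.et_le (h : Dist ν l) (x : Fin d → ℤ) : et d ν x ≤ mean ν * (n1 x : ℝ) := by
  obtain ⟨w, hw⟩ := exists_walk' 0 x
  rw [sub_zero] at hw
  have h1 : (n1 x : ℝ) = (w.length : ℝ) := by exact_mod_cast hw.symm
  rw [h1, ← h.integral_passage w]
  refine integral_mono_ae (h.int_T 0 x) (h.int_passage w) ?_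
  filter_upwards [h.ae0 (d := d)] with τ hτ using T_le hτ w

theorem Dist.le_et (h : Dist ν l) (x : Fin d → ℤ) : l * (n1 x : ℝ) ≤ et d ν x := by
  have h1 : ∫ _τ, l * (n1 x : ℝ) ∂law d ν ≤ et d ν x := by
    refine integral_mono_ae (integrable_const _) (h.int_T 0 x) ?_
    filter_upwards [h.ae (d := d)] with τ hτ
    have := T_ge h.nn hτ 0 x
    rwa [sub_zero] at this
  simpa using h1

theorem Dist.integral_map (h : Dist ν l) (f : lattice d ≃g lattice d) (x y : Fin d → ℤ) :
    ∫ τ, T τ (f x) (f y) ∂law d ν = ∫ τ, T τ x y ∂law d ν := by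
  let e : Sym2 (Fin d → ℤ) ≃ Sym2 (Fin d → ℤ) :=
    { toFun := Sym2.map f
      invFun := Sym2.map f.symm
      left_inv := fun z => by
        rw [Sym2.map_map]
        have : (⇑f.symm ∘ ⇑f) = id := by funext z; simp
        rw [this, Sym2.map_id]; rfl
      right_inv := fun z => by
        rw [Sym2.map_map]
        have : (⇑f ∘ ⇑f.symm) = id := by funext z; simp
        rw [this, Sym2.map_id]; rfl }
  have h1 : ∫ τ, T τ (f x) (f y) ∂law d ν = ∫ τ, T (fun z => τ (e z)) x y ∂law d ν := by
    refine integral_congr_ae ?_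
    filter_upwards [h.ae0 (d := d)] with τ hτ using T_map hτ f x y
  have h2 := Measure.infinitePi_map_piCongrLeft (X := fun _ : Sym2 (Fin d → ℤ) => ℝ)
    (μ := fun _ => ν) e
  have h3 : Measurable fun τ : Sym2 (Fin d → ℤ) → ℝ => T (fun z => τ (e z)) x y :=
    (measurable_T x y).comp (measurable_pi_lambda _ fun z => measurable_pi_apply _)
  rw [h1]
  have h4 : law d ν = Measure.map (MeasurableEquiv.piCongrLeft (fun _ : Sym2 (Fin d → ℤ) => ℝ) e)
      (law d ν) := h2.symm
  conv_lhs => rw [h4]
  rw [MeasureTheory.integral_map (MeasurableEquiv.measurable _).aemeasurable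
    h3.aestronglyMeasurable]
  refine integral_congr_ae (Filter.Eventually.of_forall fun τ => ?_)
  show T (fun z => (MeasurableEquiv.piCongrLeft (fun _ : Sym2 (Fin d → ℤ) => ℝ) e) τ (e z)) x y = _
  congr 1
  funext z
  exact Equiv.piCongrLeft_apply_apply (fun _ : Sym2 (Fin d → ℤ) => ℝ) e τ z

/-! ### Automorphisms of the lattice -/

/-- translations -/
def transl (a : Fin d → ℤ) : lattice d ≃g lattice d where
  toEquiv := Equiv.addLeft a
  map_rel_iff' := by
    intro x y
    show ∑ i, |(a + x) i - (a + y) i| = 1 ↔ ∑ i, |x i - y i| = 1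
    simp

/-- signed permutations of the coordinates -/
def sperm (ε : Fin d → ℤˣ) (π : Equiv.Perm (Fin d)) : lattice d ≃g lattice d where
  toEquiv :=
    { toFun := fun x i => ε i * x (π i)
      invFun := fun x i => ε (π.symm i) * x (π.symm i)
      left_inv := fun x => by
        funext i
        simp only [Equiv.apply_symm_apply]
        rw [← mul_assoc, ← Units.val_mul, Int.units_mul_self, Units.val_one, one_mul]
      right_inv := fun x => by
        funext i
        simp only [Equiv.symm_apply_apply]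
        rw [← mul_assoc, ← Units.val_mul, Int.units_mul_self, Units.val_one, one_mul] }
  map_rel_iff' := by
    intro x y
    show ∑ i, |(ε i : ℤ) * x (π i) - ε i * y (π i)| = 1 ↔ ∑ i, |x i - y i| = 1
    have h1 : ∀ i, |(ε i : ℤ) * x (π i) - ε i * y (π i)| = |x (π i) - y (π i)| := by
      intro i
      rw [← mul_sub, abs_mul]
      have : |(ε i : ℤ)| = 1 := by
        rcases Int.units_eq_one_or (ε i) with h | h <;> simp [h]
      rw [this, one_mul]
    simp only [h1]
    rw [Equiv.sum_comp π fun i => |x i - y i|]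

theorem Dist.et_sperm (h : Dist ν l) (ε : Fin d → ℤˣ) (π : Equiv.Perm (Fin d)) (x : Fin d → ℤ) :
    et d ν (fun i => ε i * x (π i)) = et d ν x := by
  have h1 := h.integral_map (sperm ε π) 0 x
  have h2 : (sperm ε π) (0 : Fin d → ℤ) = 0 := by
    funext i
    show (ε i : ℤ) * (0 : ℤ) = 0
    simp
  rw [h2] at h1
  exact h1

theorem Dist.et_add (h : Dist ν l) (x y : Fin d → ℤ) : et d ν (x + y) ≤ et d ν x + et d ν y := by
  have h1 := h.integral_map (transl x) 0 y
  have h2 : (transl x) (0 : Fin d → ℤ) = x := by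
    show x + 0 = x
    simp
  have h3 : (transl x) y = x + y := rfl
  rw [h2, h3] at h1
  have h4 : et d ν y = ∫ τ, T τ x (x + y) ∂law d ν := h1.symm
  rw [h4]
  unfold et
  rw [← integral_add (h.int_T _ _) (h.int_T _ _)]
  refine integral_mono_ae (h.int_T _ _) ((h.int_T _ _).add (h.int_T _ _)) ?_
  filter_upwards [h.ae0 (d := d)] with τ hτ using T_triangle hτ 0 x (x + y)

theorem Dist.et_lip (h : Dist ν l) (x y : Fin d → ℤ) :
    et d ν x ≤ et d ν y + mean ν * (n1 (x - y) : ℝ) := by
  have h1 := h.et_add y (x - y)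
  have h2 := h.et_le (x - y)
  rw [add_sub_cancel] at h1
  linarith

end Pool.Agent.Lib.MP_a83deb_pr
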