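import Pool.Agent.Lib.MP_a83deb_pr.Limit

/-!
# Directions of curvature of the unit ball of a norm which is comparable with the `ℓ¹` norm
-/

set_option autoImplicit false

open Metric Filter Topology

namespace Pool.Agent.Lib.MP_a83deb_pr

variable {d : ℕ}

/-- sublinear functions comparable with the `ℓ¹` norm -/
structure Nm (M : EuclideanSpace ℝ (Fin d) → ℝ) (a b : ℝ) : Prop where
  a0 : 0 < a
  b0 : 0 < b
  add : ∀ x y, M (x + y) ≤ M x + M y
  smul : ∀ c : ℝ, 0 ≤ c → ∀ x, M (c • x) = c * M x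
  ge : ∀ x, a * l1 x ≤ M x
  le : ∀ x, M x ≤ b * l1 x

theorem norm_le_l1 (x : EuclideanSpace ℝ (Fin d)) : ‖x‖ ≤ l1 x := by
  rw [EuclideanSpace.norm_eq]
  refine Real.sqrt_le_iff.2 ⟨l1_nonneg x, ?_⟩
  have h : ∀ i ∈ Finset.univ, ‖x i‖ ^ 2 ≤ |x i| * l1 x := by
    intro i _
    rw [Real.norm_eq_abs, sq]
    refine mul_le_mul_of_nonneg_left ?_ (abs_nonneg _)
    exact Finset.single_le_sum (f := fun j => |x j|) (fun j _ => abs_nonneg _) (Finset.mem_univ i)
  calc ∑ i, ‖x i‖ ^ 2 ≤ ∑ i, |x i| * l1 x := Finset.sum_le_sum h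
    _ = l1 x ^ 2 := by rw [← Finset.sum_mul, sq]; rfl

theorem l1_le_norm (x : EuclideanSpace ℝ (Fin d)) : l1 x ≤ d * ‖x‖ := by
  have h : ∀ i ∈ Finset.univ, |x i| ≤ ‖x‖ := fun i _ => PiLp.norm_apply_le x i
  calc l1 x ≤ ∑ _i : Fin d, ‖x‖ := Finset.sum_le_sum h
    _ = _ := by simp

variable {M : EuclideanSpace ℝ (Fin d) → ℝ} {a b : ℝ}

theorem Nm.nonneg (h : Nm M a b) (x : EuclideanSpace ℝ (Fin d)) : 0 ≤ M x :=
  (mul_nonneg h.a0.le (l1_nonneg x)).trans (h.ge x)

theorem Nm.zero (h : Nm M a b) : M 0 = 0 := by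
  have := h.smul 0 le_rfl 0
  simpa using this

theorem Nm.pos (h : Nm M a b) {x : EuclideanSpace ℝ (Fin d)} (hx : x ≠ 0) : 0 < M x := by
  have h1 : 0 < ‖x‖ := norm_pos_iff.2 hx
  have h2 := norm_le_l1 x
  exact lt_of_lt_of_le (mul_pos h.a0 (lt_of_lt_of_le h1 h2)) (h.ge x)

theorem Nm.continuous (h : Nm M a b) : Continuous M := by
  have hlip : ∀ x y, |M x - M y| ≤ (b * d) * ‖x - y‖ := by
    intro x y
    have h1 := h.add y (x - y)
    have h2 := h.add x (y - x)
    have h3 := h.le (x - y)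
    have h4 := h.le (y - x)
    have h5 := mul_le_mul_of_nonneg_left (l1_le_norm (x - y)) h.b0.le
    have h6 := mul_le_mul_of_nonneg_left (l1_le_norm (y - x)) h.b0.le
    rw [norm_sub_rev y x] at h6
    rw [add_sub_cancel] at h1 h2
    rw [abs_le]
    constructor <;> linarith
  have hb : 0 ≤ b * d := mul_nonneg h.b0.le (Nat.cast_nonneg d)
  have : LipschitzWith (Real.toNNReal (b * d)) M := by
    refine LipschitzWith.of_dist_le_mul fun x y => ?_
    rw [Real.dist_eq, dist_eq_norm, Real.coe_toNNReal _ hb]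
    exact hlip x y
  exact this.continuous

theorem Nm.convex (h : Nm M a b) : Convex ℝ {x | M x ≤ 1} := by
  intro x hx y hy s t hs ht hst
  have hx' : M x ≤ 1 := hx
  have hy' : M y ≤ 1 := hy
  show M (s • x + t • y) ≤ 1
  have h1 := h.add (s • x) (t • y)
  rw [h.smul s hs, h.smul t ht] at h1
  nlinarith

theorem Nm.isClosed (h : Nm M a b) : IsClosed {x | M x ≤ 1} := isClosed_le h.continuous continuous_const

theorem Nm.bound (h : Nm M a b) {x : EuclideanSpace ℝ (Fin d)} (hx : M x ≤ 1) : ‖x‖ ≤ 1 / a := by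
  rw [le_div_iff₀ h.a0]
  have h1 := mul_le_mul_of_nonneg_left (norm_le_l1 x) h.a0.le
  linarith [h.ge x]

theorem Nm.isCompact (h : Nm M a b) : IsCompact {x | M x ≤ 1} :=
  Metric.isCompact_of_isClosed_isBounded h.isClosed
    ((isBounded_iff_forall_norm_le).2 ⟨1 / a, fun _ hx => h.bound hx⟩)

theorem Nm.exists_far (h : Nm M a b) (c : EuclideanSpace ℝ (Fin d)) :
    ∃ z, M z ≤ 1 ∧ ∀ x, M x ≤ 1 → dist x c ≤ dist z c := by
  have hne : {x | M x ≤ 1}.Nonempty := ⟨0, by show M 0 ≤ 1; rw [h.zero]; norm_num⟩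
  obtain ⟨z, hz, hmax⟩ := h.isCompact.exists_isMaxOn hne
    (f := fun x => dist x c) (Continuous.continuousOn (by fun_prop))
  exact ⟨z, hz, fun x hx => hmax hx⟩

/-- the point `e_j / b` -/
theorem Nm.pt (h : Nm M a b) (j : Fin d) :
    M (b⁻¹ • EuclideanSpace.single j (1 : ℝ)) ≤ 1 ∧
      ‖b⁻¹ • EuclideanSpace.single j (1 : ℝ)‖ = b⁻¹ := by
  have hb := inv_pos.2 h.b0
  constructor
  · rw [h.smul _ hb.le]
    have h1 := h.le (EuclideanSpace.single j (1 : ℝ))
    have h2 : l1 (EuclideanSpace.single j (1 : ℝ)) = 1 := by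
      unfold l1
      rw [Finset.sum_eq_single j]
      · simp
      · intro i _ hi
        simp [hi]
      · simp
    rw [h2, mul_one] at h1
    calc b⁻¹ * M (EuclideanSpace.single j (1 : ℝ)) ≤ b⁻¹ * b := mul_le_mul_of_nonneg_left h1 hb.le
      _ = 1 := inv_mul_cancel₀ h.b0.ne'
  · rw [norm_smul, Real.norm_eq_abs, abs_of_pos hb]
    simp

/-- a farthest point is a point of curvature -/
theorem Nm.far_curv (h : Nm M a b) (j : Fin d) {c z : EuclideanSpace ℝ (Fin d)} (hz : M z ≤ 1)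
    (hfar : ∀ x, M x ≤ 1 → dist x c ≤ dist z c) :
    M z = 1 ∧ z ≠ 0 ∧ Curv M (‖z‖⁻¹ • z) ∧ z = (M (‖z‖⁻¹ • z))⁻¹ • (‖z‖⁻¹ • z) := by
  have hzc : z ≠ c := by
    intro hzc
    have h1 := hfar 0 (by rw [h.zero]; norm_num)
    have h2 := hfar _ (h.pt j).1
    rw [hzc, dist_self] at h1 h2
    have h3 : (0 : EuclideanSpace ℝ (Fin d)) = c := dist_le_zero.1 h1
    have h4 := dist_le_zero.1 h2
    have h5 := (h.pt j).2
    rw [h4, ← h3, norm_zero] at h5
    exact (inv_pos.2 h.b0).ne h5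
  have hM1 : M z = 1 := by
    by_contra hne
    have hlt : M z < 1 := lt_of_le_of_ne hz hne
    have hv : 0 ≤ M (z - c) := h.nonneg _
    set s : ℝ := (1 - M z) / (1 + M (z - c)) with hs
    have hs0 : 0 < s := div_pos (by linarith) (by linarith)
    have h1 : M (z + s • (z - c)) ≤ 1 := by
      have h2 := h.add z (s • (z - c))
      rw [h.smul s hs0.le] at h2
      have h3 : s * (1 + M (z - c)) = 1 - M z := div_mul_cancel₀ _ (by positivity)
      nlinarith
    have h4 := hfar _ h1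
    rw [dist_eq_norm, dist_eq_norm] at h4
    have h5 : z + s • (z - c) - c = (1 + s) • (z - c) := by
      rw [add_smul, one_smul]
      abel
    rw [h5, norm_smul, Real.norm_eq_abs, abs_of_pos (by linarith)] at h4
    have h6 : 0 < ‖z - c‖ := norm_pos_iff.2 (sub_ne_zero.2 hzc)
    nlinarith
  have hz0 : z ≠ 0 := by
    intro h0
    rw [h0, h.zero] at hM1
    norm_num at hM1
  have hn : 0 < ‖z‖ := norm_pos_iff.2 hz0
  have hMu : M (‖z‖⁻¹ • z) = ‖z‖⁻¹ := by
    rw [h.smul _ (inv_pos.2 hn).le, hM1, mul_one]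
  have hzz : z = (M (‖z‖⁻¹ • z))⁻¹ • (‖z‖⁻¹ • z) := by
    rw [hMu, inv_inv, smul_smul, mul_inv_cancel₀ hn.ne', one_smul]
  refine ⟨hM1, hz0, ⟨?_, c, dist z c, ?_, ?_⟩, hzz⟩
  · rw [norm_smul, Real.norm_eq_abs, abs_of_pos (inv_pos.2 hn), inv_mul_cancel₀ hn.ne']
  · rw [← hzz]
    exact mem_sphere.2 rfl
  · intro x hx
    exact mem_closedBall.2 (hfar x hx)

theorem Curv.ne_zero {u : EuclideanSpace ℝ (Fin d)} (hu : Curv M u) : u ≠ 0 := by
  intro h0
  have := hu.1
  rw [h0, norm_zero] at this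
  norm_num at this

theorem Nm.curv_M (h : Nm M a b) {u : EuclideanSpace ℝ (Fin d)} (hu : Curv M u) :
    M ((M u)⁻¹ • u) = 1 := by
  have h1 : 0 < M u := h.pos hu.ne_zero
  rw [h.smul _ (inv_pos.2 h1).le, inv_mul_cancel₀ h1.ne']

/-- the shape is the closed convex hull of its points of curvature -/
theorem Nm.hull (h : Nm M a b) (j : Fin d) : {x | M x ≤ 1} = closure (convexHull ℝ (pts M)) := by
  refine Set.Subset.antisymm ?_ ?_
  · intro y hy
    by_contra hyK
    obtain ⟨f, t, hf1, hf2⟩ := geometric_hahn_banach_closed_point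
      (convex_convexHull ℝ (pts M)).closure isClosed_closure hyK
    set v := (InnerProductSpace.toDual ℝ (EuclideanSpace ℝ (Fin d))).symm f with hv
    have hfv : ∀ x, f x = inner ℝ v x := fun x => by
      rw [hv, InnerProductSpace.toDual_symm_apply]
    set s : ℝ := (1 / a) ^ 2 / (f y - t) with hs
    have hft : 0 < f y - t := by linarith
    have hs0 : 0 < s := by
      have := h.a0
      positivity
    obtain ⟨z, hz, hfar⟩ := h.exists_far (-(s • v))
    obtain ⟨hz1, hz0, hcurv, hzz⟩ := h.far_curv j hz hfar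
    have hzt : f z < t := hf1 z (subset_closure (subset_convexHull ℝ _ ⟨_, hcurv, hzz⟩))
    have h1 := hfar y hy
    rw [dist_eq_norm, dist_eq_norm, sub_neg_eq_add, sub_neg_eq_add] at h1
    have h2 : ‖y + s • v‖ ^ 2 ≤ ‖z + s • v‖ ^ 2 := by
      gcongr
    have e1 : ∀ x : EuclideanSpace ℝ (Fin d), ‖x + s • v‖ ^ 2 = ‖x‖ ^ 2 + 2 * s * f x + ‖s • v‖ ^ 2 := by
      intro x
      rw [norm_add_sq_real, real_inner_smul_right, real_inner_comm, hfv]
      ring
    rw [e1, e1] at h2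
    have h3 : ‖z‖ ^ 2 ≤ (1 / a) ^ 2 := by
      have := h.bound hz
      gcongr
    have h4 : s * (f y - t) = (1 / a) ^ 2 := div_mul_cancel₀ _ hft.ne'
    have h5 : s * (f y - t) < s * (f y - f z) := mul_lt_mul_of_pos_left (by linarith) hs0
    have h6 : 0 < (1 / a) ^ 2 := by
      have := h.a0
      positivity
    nlinarith [sq_nonneg ‖y‖]
  · refine closure_minimal (convexHull_min ?_ h.convex) h.isClosed
    rintro z ⟨u, hu, rfl⟩
    exact (h.curv_M hu).le

theorem Curv.extreme (h : Nm M a b) {u : EuclideanSpace ℝ (Fin d)} (hu : Curv M u) :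
    (M u)⁻¹ • u ∈ Set.extremePoints ℝ {x | M x ≤ 1} := by
  obtain ⟨hu1, c, R, hzs, hW⟩ := hu
  have hz1 := h.curv_M ⟨hu1, c, R, hzs, hW⟩
  refine mem_extremePoints.2 ⟨hz1.le, fun x hx y hy hxy => ?_⟩
  have key : x = y := by
    by_contra hne
    haveI : Nontrivial (EuclideanSpace ℝ (Fin d)) := ⟨x, y, hne⟩
    have h1 := (strictConvex_closedBall ℝ c R).openSegment_subset (hW hx) (hW hy) hne hxy
    rw [interior_closedBall'] at h1
    have h2 := mem_ball.1 h1
    have h3 := mem_sphere.1 hzs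
    linarith
  subst key
  rw [openSegment_same] at hxy
  have := Set.mem_singleton_iff.1 hxy
  exact ⟨this.symm, this.symm⟩

/-- finitely many directions of curvature iff the shape is a polytope -/
theorem Nm.finite_iff (h : Nm M a b) (j : Fin d) : {u | Curv M u}.Finite ↔
    ∃ s : Finset (EuclideanSpace ℝ (Fin d)), {x | M x ≤ 1} = convexHull ℝ (s : Set (EuclideanSpace ℝ (Fin d))) := by
  constructor
  · intro hfin
    have h1 : (pts M).Finite := by
      have : pts M = (fun u => (M u)⁻¹ • u) '' {u | Curv M u} := by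
        ext z
        constructor
        · rintro ⟨u, hu, rfl⟩
          exact ⟨u, hu, rfl⟩
        · rintro ⟨u, hu, rfl⟩
          exact ⟨u, hu, rfl⟩
      rw [this]
      exact hfin.image _
    refine ⟨h1.toFinset, ?_⟩
    rw [h.hull j, h1.coe_toFinset, (h1.isClosed_convexHull ℝ).closure_eq]
  · rintro ⟨s, hs⟩
    refine Set.Finite.of_finite_image (f := fun u => (M u)⁻¹ • u) ?_ ?_
    · refine s.finite_toSet.subset ?_
      rintro z ⟨u, hu, rfl⟩
      have h1 := Curv.extreme h hu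
      rw [hs] at h1
      exact extremePoints_convexHull_subset h1
    · intro u hu u' hu' heq
      have hu1 : ‖u‖ = 1 := hu.1
      have hu1' : ‖u'‖ = 1 := hu'.1
      have hp : 0 < M u := h.pos (Curv.ne_zero hu)
      have hp' : 0 < M u' := h.pos (Curv.ne_zero hu')
      have heq' : (M u)⁻¹ • u = (M u')⁻¹ • u' := heq
      have h2 : (M u)⁻¹ = (M u')⁻¹ := by
        have h3 := congrArg norm heq'
        rwa [norm_smul, norm_smul, hu1, hu1', mul_one, mul_one, Real.norm_eq_abs, Real.norm_eq_abs,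
          abs_of_pos (inv_pos.2 hp), abs_of_pos (inv_pos.2 hp')] at h3
      rw [h2] at heq'
      exact smul_right_injective _ (inv_pos.2 hp').ne' heq'

end Pool.Agent.Lib.MP_a83deb_pr
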