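import Pool.Agent.Lib.MP_a83deb_pr.Final

/-!
# An upper bound for the time constant in the coordinate directions, sharp in high dimension
-/

set_option autoImplicit false

open MeasureTheory ProbabilityTheory Filter Topology

namespace Pool.Agent.Lib.MP_a83deb_pr

variable {d : ℕ}

/-! ### Columns -/

theorem adj_iff {x y : Fin d → ℤ} : (lattice d).Adj x y ↔ ∑ i, |x i - y i| = 1 := Iff.rfl

theorem exists_line (a : Fin d → ℤ) (j : Fin d) : ∀ n : ℕ,
    ∃ w : (lattice d).Walk a (a + Pi.single j (n : ℤ)), w.length = n ∧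
      ∀ e ∈ w.edges, ∀ x ∈ e, ∀ k, k ≠ j → x k = a k := by
  intro n
  induction n with
  | zero =>
    refine ⟨(SimpleGraph.Walk.nil : (lattice d).Walk a a).copy rfl (by simp), by simp, ?_⟩
    intro e he
    simp at he
  | succ n ih =>
    obtain ⟨w, hw, hw2⟩ := ih
    have hadj : (lattice d).Adj (a + Pi.single j (n : ℤ)) (a + Pi.single j ((n + 1 : ℕ) : ℤ)) := by
      rw [adj_iff, Finset.sum_eq_single j]
      · simp
      · intro i _ hi
        simp [hi]
      · simp
    refine ⟨w.concat hadj, by rw [SimpleGraph.Walk.length_concat, hw], ?_⟩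
    intro e he x hx k hk
    rw [SimpleGraph.Walk.edges_concat, List.concat_eq_append, List.mem_append,
      List.mem_singleton] at he
    rcases he with he | rfl
    · exact hw2 e he x hx k hk
    · rcases Sym2.mem_iff.1 hx with rfl | rfl <;> simp [hk]

theorem exists_column {i j : Fin d} (hij : i ≠ j) (L : ℕ) :
    ∃ w : (lattice d).Walk 0 (Pi.single j (L : ℤ)), w.length = L + 2 ∧
      ∀ e ∈ w.edges, (∃ x ∈ e, x i = 1) ∧ ∀ x ∈ e, ∀ k, k ≠ i → k ≠ j → x k = 0 := by
  obtain ⟨w, hw, hw2⟩ := exists_line (Pi.single i (1 : ℤ)) j L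
  have h1 : (lattice d).Adj 0 (Pi.single i (1 : ℤ)) := by
    rw [adj_iff, Finset.sum_eq_single i]
    · simp
    · intro k _ hk
      simp [hk]
    · simp
  have h2 : (lattice d).Adj (Pi.single i (1 : ℤ) + Pi.single j (L : ℤ)) (Pi.single j (L : ℤ)) := by
    rw [adj_iff, Finset.sum_eq_single i]
    · simp
    · intro k _ hk
      simp [hk]
    · simp
  refine ⟨SimpleGraph.Walk.cons h1 (w.concat h2), ?_, ?_⟩
  · rw [SimpleGraph.Walk.length_cons, SimpleGraph.Walk.length_concat, hw]
  · intro e he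
    rw [SimpleGraph.Walk.edges_cons, SimpleGraph.Walk.edges_concat, List.concat_eq_append,
      List.mem_cons, List.mem_append, List.mem_singleton] at he
    rcases he with rfl | he | rfl
    · refine ⟨⟨Pi.single i 1, by simp, by simp⟩, ?_⟩
      intro x hx k hki hkj
      rcases Sym2.mem_iff.1 hx with rfl | rfl
      · rfl
      · simp [hki]
    · refine ⟨?_, ?_⟩
      · induction e with
        | h x y =>
          refine ⟨x, by simp, ?_⟩
          rw [hw2 _ he x (by simp) i hij]
          simp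
      · intro x hx k hki hkj
        rw [hw2 e he x hx k hkj]
        simp [hki]
    · refine ⟨⟨Pi.single i 1 + Pi.single j (L : ℤ), by simp, by simp [hij]⟩, ?_⟩
      intro x hx k hki hkj
      rcases Sym2.mem_iff.1 hx with rfl | rfl <;> simp [hki, hkj]

/-! ### Independence -/

variable {ν : Measure ℝ} [IsProbabilityMeasure ν] {l : ℝ}

/-- `f` depends only on the edges in `S` -/
def Dep (f : (Sym2 (Fin d → ℤ) → ℝ) → ℝ) (S : Set (Sym2 (Fin d → ℤ))) : Prop :=
  ∀ τ τ', (∀ e ∈ S, τ e = τ' e) → f τ = f τ'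

theorem indep_mul {f g : (Sym2 (Fin d → ℤ) → ℝ) → ℝ} (hf : Measurable f) (hg : Measurable g)
    {S S' : Finset (Sym2 (Fin d → ℤ))} (hS : Disjoint S S') (df : Dep f S) (dg : Dep g S') :
    ∫ τ, f τ * g τ ∂law d ν = (∫ τ, f τ ∂law d ν) * ∫ τ, g τ ∂law d ν := by
  classical
  have ind : iIndepFun (fun (e : Sym2 (Fin d → ℤ)) (τ : Sym2 (Fin d → ℤ) → ℝ) => τ e) (law d ν) :=
    iIndepFun_infinitePi (P := fun _ : Sym2 (Fin d → ℤ) => ν) (X := fun _ t => t)
      (fun _ => measurable_id)
  have h := ind.indepFun_finset S S' hS fun e => measurable_pi_apply e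
  have key : ∀ (S : Finset (Sym2 (Fin d → ℤ))) (f : (Sym2 (Fin d → ℤ) → ℝ) → ℝ), Measurable f →
      Dep f S → ∃ φ : (S → ℝ) → ℝ, Measurable φ ∧
        (φ ∘ fun (τ : Sym2 (Fin d → ℤ) → ℝ) (i : S) => τ i) = f := by
    intro S f hf df
    refine ⟨fun g => f fun e => if h : e ∈ S then g ⟨e, h⟩ else 0, ?_, ?_⟩
    · refine hf.comp (measurable_pi_lambda _ fun e => ?_)
      by_cases h : e ∈ S
      · simp only [h, dif_pos]
        exact measurable_pi_apply _
      · simp only [h, dif_neg, not_false_iff]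
        exact measurable_const
    · funext τ
      refine df _ _ fun e he => ?_
      have he' : e ∈ S := he
      simp [he']
  obtain ⟨φ, hφ, e1⟩ := key S f hf df
  obtain ⟨ψ, hψ, e2⟩ := key S' g hg dg
  have h2 := h.comp hφ hψ
  rw [e1, e2] at h2
  exact h2.integral_fun_mul_eq_mul_integral hf.aestronglyMeasurable hg.aestronglyMeasurable

theorem indep_prod {J : Type} (S : J → Finset (Sym2 (Fin d → ℤ)))
    (f : J → (Sym2 (Fin d → ℤ) → ℝ) → ℝ) (hf : ∀ i, Measurable (f i)) (df : ∀ i, Dep (f i) (S i))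
    (hS : ∀ i i', i ≠ i' → Disjoint (S i) (S i')) (s : Finset J) :
    ∫ τ, ∏ i ∈ s, f i τ ∂law d ν = ∏ i ∈ s, ∫ τ, f i τ ∂law d ν := by
  classical
  induction s using Finset.induction_on with
  | empty => simp
  | insert i s hi ih =>
    rw [Finset.prod_insert hi, ← ih]
    simp only [Finset.prod_insert hi]
    refine indep_mul (S := S i) (S' := s.biUnion S) (hf i)
      (Finset.measurable_fun_prod _ fun k _ => hf k) ?_ (df i) ?_
    · rw [Finset.disjoint_biUnion_right]
      intro k hk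
      exact hS i k fun h => hi (h ▸ hk)
    · intro τ τ' h
      refine Finset.prod_congr rfl fun k hk => df k _ _ fun e he => h e ?_
      simp only [Finset.coe_biUnion, Set.mem_iUnion]
      exact ⟨k, hk, he⟩

theorem prob_fast (S : Finset (Sym2 (Fin d → ℤ))) (c : ℝ) :
    (law d ν).real {τ | ∀ e ∈ S, τ e ≤ c} = ν.real (Set.Iic c) ^ S.card := by
  have h := Measure.infinitePi_pi (fun _ : Sym2 (Fin d → ℤ) => ν) (s := S)
    (t := fun _ => Set.Iic c) (fun _ _ => measurableSet_Iic)
  have e : {τ : Sym2 (Fin d → ℤ) → ℝ | ∀ e ∈ S, τ e ≤ c} = Set.pi S fun _ => Set.Iic c := by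
    ext τ
    simp [Set.mem_pi]
  rw [e]
  simp only [Measure.real, law, h, Finset.prod_const, ENNReal.toReal_pow]

end Pool.Agent.Lib.MP_a83deb_pr
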