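import Pool.Agent.Lib.MP_a83deb_pr.Upper

/-!
# The time constant in the coordinate directions tends to the infimum of the support
-/

set_option autoImplicit false

open MeasureTheory ProbabilityTheory Filter Topology

namespace Pool.Agent.Lib.MP_a83deb_pr

variable {d : ℕ} {ν : Measure ℝ} [IsProbabilityMeasure ν] {l : ℝ}

theorem passage_dep {x y : Fin d → ℤ} (w : (lattice d).Walk x y) :
    ∀ τ τ' : Sym2 (Fin d → ℤ) → ℝ, (∀ e ∈ w.edges, τ e = τ' e) → passage τ w = passage τ' w := by
  intro τ τ' h
  unfold passage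
  congr 1
  exact List.map_congr_left h

/-- one transversal step to one of `d - 1` columns, `L` steps along the column, one step back -/
theorem Dist.upper (h : Dist ν l) (hd : 2 ≤ d) (j : Fin d) (L : ℕ) {c : ℝ} (hc : 0 ≤ c) :
    et d ν (Pi.single j (L : ℤ)) ≤ (L + 2) * c +
      (L + 2) * mean ν * (1 - ν.real (Set.Iic c) ^ (L + 2)) ^ (d - 2) := by
  classical
  set J : Type := {i : Fin d // i ≠ j} with hJ
  choose W hWl hWe using fun i : J => exists_column i.2 L
  set S : J → Finset (Sym2 (Fin d → ℤ)) := fun i => (W i).edges.toFinset with hS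
  have hdisj : ∀ i i' : J, i ≠ i' → Disjoint (S i) (S i') := by
    intro i i' hii
    rw [Finset.disjoint_left]
    intro e he he'
    rw [List.mem_toFinset] at he he'
    obtain ⟨⟨x, hx, hx1⟩, -⟩ := hWe i e he
    have h0 := (hWe i' e he').2 x hx i (fun h => hii (Subtype.ext h)) i.2
    rw [hx1] at h0
    exact one_ne_zero h0
  have hcardS : ∀ i, (S i).card ≤ L + 2 := by
    intro i
    refine (List.toFinset_card_le _).trans ?_
    rw [SimpleGraph.Walk.length_edges, hWl]
  have hq0 : 0 ≤ ν.real (Set.Iic c) := measureReal_nonneg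
  have hq1 : ν.real (Set.Iic c) ≤ 1 := measureReal_le_one
  set q := ν.real (Set.Iic c) with hq
  set c' : ℝ := (L + 2) * c with hc'
  have hc'0 : 0 ≤ c' := by positivity
  obtain ⟨i0⟩ : Nonempty J := by
    haveI : Nontrivial (Fin d) := Fin.nontrivial_iff_two_le.2 hd
    obtain ⟨i, hi⟩ := exists_ne j
    exact ⟨⟨i, hi⟩⟩
  -- the indicator of a slow column
  set g : J → (Sym2 (Fin d → ℤ) → ℝ) → ℝ := fun i τ => if c' < passage τ (W i) then 1 else 0 with hg
  have hgm : ∀ i, Measurable (g i) := fun i =>
    Measurable.ite (measurableSet_lt measurable_const (measurable_passage (W i))) measurable_const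
      measurable_const
  have hg01 : ∀ i τ, 0 ≤ g i τ ∧ g i τ ≤ 1 := by
    intro i τ
    simp only [hg]
    split_ifs <;> norm_num
  have hgint : ∀ i, Integrable (g i) (law d ν) := fun i =>
    (integrable_const (1 : ℝ)).mono' (hgm i).aestronglyMeasurable
      (Eventually.of_forall fun τ => by
        rw [Real.norm_eq_abs, abs_of_nonneg (hg01 i τ).1]
        exact (hg01 i τ).2)
  have hgE : ∀ i, ∫ τ, g i τ ∂law d ν ≤ 1 - q ^ (L + 2) := by
    intro i
    have hA : MeasurableSet {τ : Sym2 (Fin d → ℤ) → ℝ | ∀ e ∈ S i, τ e ≤ c} := by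
      have e : {τ : Sym2 (Fin d → ℤ) → ℝ | ∀ e ∈ S i, τ e ≤ c} =
          Set.pi (S i) fun _ => Set.Iic c := by
        ext τ
        simp [Set.mem_pi]
      rw [e]
      exact MeasurableSet.pi (Finset.countable_toSet _) fun _ _ => measurableSet_Iic
    have h1 : ∀ τ, g i τ ≤ 1 - Set.indicator {τ : Sym2 (Fin d → ℤ) → ℝ | ∀ e ∈ S i, τ e ≤ c}
        (fun _ => (1 : ℝ)) τ := by
      intro τ
      by_cases hτ : τ ∈ {τ : Sym2 (Fin d → ℤ) → ℝ | ∀ e ∈ S i, τ e ≤ c}
      · rw [Set.indicator_of_mem hτ]
        have h2 : passage τ (W i) ≤ c' := by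
          unfold passage
          have h3 := List.sum_le_card_nsmul ((W i).edges.map τ) c (by
            intro t ht
            obtain ⟨e, he, rfl⟩ := List.mem_map.1 ht
            exact hτ e (List.mem_toFinset.2 he))
          rw [List.length_map, SimpleGraph.Walk.length_edges, hWl, nsmul_eq_mul] at h3
          rw [hc']
          push_cast at h3
          exact h3
        simp only [hg, if_neg (not_lt.2 h2)]
        norm_num
      · rw [Set.indicator_of_notMem hτ, sub_zero]
        exact (hg01 i τ).2
    have h2 : ∫ τ, (1 - Set.indicator {τ : Sym2 (Fin d → ℤ) → ℝ | ∀ e ∈ S i, τ e ≤ c}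
        (fun _ => (1 : ℝ)) τ) ∂law d ν = 1 - q ^ (S i).card := by
      rw [integral_sub (integrable_const _) ((integrable_const (1 : ℝ)).indicator hA),
        integral_indicator_const _ hA, prob_fast, integral_const]
      simp [hq]
    calc ∫ τ, g i τ ∂law d ν ≤ ∫ τ, (1 - Set.indicator
          {τ : Sym2 (Fin d → ℤ) → ℝ | ∀ e ∈ S i, τ e ≤ c} (fun _ => (1 : ℝ)) τ) ∂law d ν :=
          integral_mono (hgint i)
            ((integrable_const _).sub ((integrable_const (1 : ℝ)).indicator hA)) h1
      _ = 1 - q ^ (S i).card := h2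
      _ ≤ 1 - q ^ (L + 2) := by
          have := pow_le_pow_of_le_one hq0 hq1 (hcardS i)
          linarith
  have hr0 : 0 ≤ 1 - q ^ (L + 2) := by
    have := pow_le_one₀ (n := L + 2) hq0 hq1
    linarith
  -- the product
  set f : J → (Sym2 (Fin d → ℤ) → ℝ) → ℝ := fun i => if i = i0 then fun τ => passage τ (W i0) else g i
    with hf
  have hfi0 : f i0 = fun τ => passage τ (W i0) := by simp [hf]
  have hfi : ∀ i, i ≠ i0 → f i = g i := fun i hi => by simp [hf, hi]
  have hfm : ∀ i, Measurable (f i) := by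
    intro i
    by_cases hi : i = i0
    · subst hi
      rw [hfi0]
      exact measurable_passage _
    · rw [hfi i hi]
      exact hgm i
  have hdep : ∀ i, Dep (f i) (S i) := by
    intro i τ τ' hττ
    have h1 : passage τ (W i) = passage τ' (W i) :=
      passage_dep (W i) τ τ' fun e he => hττ e (by simpa [hS] using he)
    by_cases hi : i = i0
    · subst hi
      rw [hfi0]
      exact h1
    · rw [hfi i hi]
      simp only [hg, h1]
  have hprod := indep_prod (ν := ν) S f hfm hdep hdisj Finset.univ
  have hsplit : ∀ τ, ∏ i, f i τ = passage τ (W i0) * ∏ i ∈ Finset.univ.erase i0, g i τ := by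
    intro τ
    rw [← Finset.mul_prod_erase Finset.univ (fun i => f i τ) (Finset.mem_univ i0), hfi0]
    congr 1
    exact Finset.prod_congr rfl fun i hi => by rw [hfi i (Finset.ne_of_mem_erase hi)]
  have hEprod : ∫ τ, passage τ (W i0) * ∏ i ∈ Finset.univ.erase i0, g i τ ∂law d ν ≤
      (L + 2) * mean ν * (1 - q ^ (L + 2)) ^ (d - 2) := by
    have h1 : ∫ τ, passage τ (W i0) * ∏ i ∈ Finset.univ.erase i0, g i τ ∂law d ν =
        ∏ i, ∫ τ, f i τ ∂law d ν := by
      rw [← hprod]
      exact integral_congr_ae (Eventually.of_forall fun τ => (hsplit τ).symm)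
    rw [h1, ← Finset.mul_prod_erase Finset.univ (fun i => ∫ τ, f i τ ∂law d ν) (Finset.mem_univ i0)]
    have h2 : ∫ τ, f i0 τ ∂law d ν = (L + 2) * mean ν := by
      rw [hfi0, h.integral_passage, hWl]
      push_cast
      ring
    have h3 : ∏ i ∈ Finset.univ.erase i0, ∫ τ, f i τ ∂law d ν ≤
        ∏ _i ∈ Finset.univ.erase i0, (1 - q ^ (L + 2)) := by
      refine Finset.prod_le_prod (fun i hi => ?_) fun i hi => ?_
      · rw [hfi i (Finset.ne_of_mem_erase hi)]
        exact integral_nonneg fun τ => (hg01 i τ).1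
      · rw [hfi i (Finset.ne_of_mem_erase hi)]
        exact hgE i
    have hcard : (Finset.univ.erase i0).card = d - 2 := by
      have hcardJ : Fintype.card J = d - 1 := by
        show Fintype.card {i : Fin d // i ≠ j} = d - 1
        rw [Fintype.card_subtype_compl, Fintype.card_fin, Fintype.card_subtype_eq]
      rw [Finset.card_erase_of_mem (Finset.mem_univ i0), Finset.card_univ, hcardJ]
      omega
    rw [Finset.prod_const, hcard] at h3
    rw [h2]
    exact mul_le_mul_of_nonneg_left h3 (mul_nonneg (by positivity) h.mean_nonneg)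
  have hintprod : Integrable (fun τ => passage τ (W i0) * ∏ i ∈ Finset.univ.erase i0, g i τ)
      (law d ν) := by
    refine (h.int_passage (W i0)).mono' ?_ ?_
    · exact ((measurable_passage _).mul
        (Finset.measurable_fun_prod _ fun i _ => hgm i)).aestronglyMeasurable
    · filter_upwards [h.ae0 (d := d)] with τ hτ
      have h1 := passage_nonneg hτ (W i0)
      have h2 : 0 ≤ ∏ i ∈ Finset.univ.erase i0, g i τ := Finset.prod_nonneg fun i _ => (hg01 i τ).1
      have h3 : ∏ i ∈ Finset.univ.erase i0, g i τ ≤ 1 :=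
        Finset.prod_le_one (fun i _ => (hg01 i τ).1) fun i _ => (hg01 i τ).2
      rw [Real.norm_eq_abs, abs_of_nonneg (mul_nonneg h1 h2)]
      exact mul_le_of_le_one_right h1 h3
  have hpt : ∀ᵐ τ ∂law d ν, T τ 0 (Pi.single j (L : ℤ)) ≤
      c' + passage τ (W i0) * ∏ i ∈ Finset.univ.erase i0, g i τ := by
    filter_upwards [h.ae0 (d := d)] with τ hτ
    have h1 := passage_nonneg hτ (W i0)
    have h2 : 0 ≤ ∏ i ∈ Finset.univ.erase i0, g i τ := Finset.prod_nonneg fun i _ => (hg01 i τ).1
    by_cases hex : ∃ i : J, i ≠ i0 ∧ passage τ (W i) ≤ c'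
    · obtain ⟨i, -, hi⟩ := hex
      have h3 := T_le hτ (W i)
      have h4 := mul_nonneg h1 h2
      linarith
    · push Not at hex
      have h3 : ∏ i ∈ Finset.univ.erase i0, g i τ = 1 := by
        refine Finset.prod_eq_one fun i hi => ?_
        simp only [hg, if_pos (hex i (Finset.ne_of_mem_erase hi))]
      rw [h3, mul_one]
      have h4 := T_le hτ (W i0)
      linarith
  have hfin : et d ν (Pi.single j (L : ℤ)) ≤
      ∫ τ, (c' + passage τ (W i0) * ∏ i ∈ Finset.univ.erase i0, g i τ) ∂law d ν :=
    integral_mono_ae (h.int_T _ _) ((integrable_const _).add hintprod) hpt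
  rw [integral_add (integrable_const _) hintprod, integral_const] at hfin
  simp only [probReal_univ, smul_eq_mul, one_mul] at hfin
  linarith

end Pool.Agent.Lib.MP_a83deb_pr
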