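import Pool.Agent.Lib.MP_a83deb_pr.Defs

/-!
# Walks and passage times
-/

set_option autoImplicit false

open MeasureTheory

namespace Pool.Agent.Lib.MP_a83deb_pr

variable {d : ℕ}

/-! ### Walks -/

theorem passage_nil (τ : Sym2 (Fin d → ℤ) → ℝ) (x : Fin d → ℤ) :
    passage τ (SimpleGraph.Walk.nil : (lattice d).Walk x x) = 0 := rfl

theorem passage_cons (τ : Sym2 (Fin d → ℤ) → ℝ) {x y z : Fin d → ℤ} (h : (lattice d).Adj x y)
    (w : (lattice d).Walk y z) : passage τ (SimpleGraph.Walk.cons h w) = τ s(x, y) + passage τ w := by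
  simp [passage]

theorem passage_append (τ : Sym2 (Fin d → ℤ) → ℝ) {x y z : Fin d → ℤ} (w : (lattice d).Walk x y)
    (w' : (lattice d).Walk y z) : passage τ (w.append w') = passage τ w + passage τ w' := by
  simp [passage, SimpleGraph.Walk.edges_append]

theorem passage_ge {τ : Sym2 (Fin d → ℤ) → ℝ} {l : ℝ} (hτ : ∀ e, l ≤ τ e) {x y : Fin d → ℤ}
    (w : (lattice d).Walk x y) : l * w.length ≤ passage τ w := by
  induction w with
  | nil => simp [passage_nil]
  | @cons a b c h w ih =>
    rw [passage_cons, SimpleGraph.Walk.length_cons]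
    push_cast
    linarith [hτ s(a, b)]

theorem passage_nonneg {τ : Sym2 (Fin d → ℤ) → ℝ} (hτ : ∀ e, 0 ≤ τ e) {x y : Fin d → ℤ}
    (w : (lattice d).Walk x y) : 0 ≤ passage τ w := by
  have := passage_ge hτ w
  simpa using this

theorem bdd {τ : Sym2 (Fin d → ℤ) → ℝ} (hτ : ∀ e, 0 ≤ τ e) (x y : Fin d → ℤ) :
    BddBelow (Set.range fun w : (lattice d).Walk x y => passage τ w) :=
  ⟨0, by rintro _ ⟨w, rfl⟩; exact passage_nonneg hτ w⟩

/-- the `ℓ¹` norm of a lattice point -/
def n1 (x : Fin d → ℤ) : ℤ := ∑ i, |x i|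

theorem n1_nonneg (x : Fin d → ℤ) : 0 ≤ n1 x := Finset.sum_nonneg fun _ _ => abs_nonneg _

theorem length_ge {x y : Fin d → ℤ} (w : (lattice d).Walk x y) : n1 (y - x) ≤ w.length := by
  induction w with
  | nil => simp [n1]
  | @cons a b c h w ih =>
    rw [SimpleGraph.Walk.length_cons]
    have h1 : ∑ i, |a i - b i| = 1 := h
    have h2 : n1 (c - a) ≤ n1 (c - b) + 1 := by
      rw [← h1]
      unfold n1
      rw [← Finset.sum_add_distrib]
      refine Finset.sum_le_sum fun i _ => ?_
      simp only [Pi.sub_apply]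
      rw [abs_sub_comm (a i) (b i)]
      calc |c i - a i| = |(c i - b i) + (b i - a i)| := by rw [sub_add_sub_cancel]
        _ ≤ _ := abs_add_le _ _
    push_cast
    linarith

theorem exists_walk : ∀ (n : ℕ) (x y : Fin d → ℤ), n1 (y - x) = n →
    ∃ w : (lattice d).Walk x y, w.length = n := by
  intro n
  induction n with
  | zero =>
    intro x y h
    have h1 : ∀ i, y i = x i := by
      intro i
      have h2 : ∑ i, |(y - x) i| = 0 := by simpa [n1] using h
      have h3 := (Finset.sum_eq_zero_iff_of_nonneg (fun i _ => abs_nonneg ((y - x) i))).1 h2 i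
        (Finset.mem_univ i)
      have h4 := abs_eq_zero.1 h3
      simp only [Pi.sub_apply] at h4
      linarith
    obtain rfl : y = x := funext h1
    exact ⟨SimpleGraph.Walk.nil, rfl⟩
  | succ n ih =>
    intro x y h
    obtain ⟨i, hi⟩ : ∃ i, (y - x) i ≠ 0 := by
      by_contra hcon
      push Not at hcon
      have : n1 (y - x) = 0 := by
        unfold n1
        exact Finset.sum_eq_zero fun i _ => by rw [hcon i, abs_zero]
      rw [this] at h
      push_cast at h
      omega
    obtain ⟨s, hs1, hsabs⟩ : ∃ s : ℤ, |s| = 1 ∧ |(y - x) i - s| = |(y - x) i| - 1 := by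
      rcases lt_or_gt_of_ne hi with h0 | h0
      · refine ⟨-1, by simp, ?_⟩
        rw [abs_of_neg h0, abs_of_nonpos (by omega)]
        ring
      · refine ⟨1, by simp, ?_⟩
        rw [abs_of_pos h0, abs_of_nonneg (by omega)]
    set x' : Fin d → ℤ := x + Pi.single i s with hx'
    have hadj : (lattice d).Adj x x' := by
      show ∑ j, |x j - x' j| = 1
      rw [Finset.sum_eq_single i]
      · simp [hx', hs1]
      · intro j _ hj
        simp [hx', hj]
      · simp
    have hn : n1 (y - x') = n := by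
      have h1 : n1 (y - x) = |(y - x) i| + ∑ j ∈ Finset.univ.erase i, |(y - x) j| :=
        (Finset.add_sum_erase Finset.univ (fun j => |(y - x) j|) (Finset.mem_univ i)).symm
      have h2 : n1 (y - x') = |(y - x') i| + ∑ j ∈ Finset.univ.erase i, |(y - x') j| :=
        (Finset.add_sum_erase Finset.univ (fun j => |(y - x') j|) (Finset.mem_univ i)).symm
      have h3 : ∑ j ∈ Finset.univ.erase i, |(y - x') j| = ∑ j ∈ Finset.univ.erase i, |(y - x) j| := by
        refine Finset.sum_congr rfl fun j hj => ?_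
        have hj' : j ≠ i := Finset.ne_of_mem_erase hj
        simp [hx', hj']
      have h4 : (y - x') i = (y - x) i - s := by
        simp [hx']
        ring
      rw [h2, h3, h4, hsabs]
      rw [h1] at h
      push_cast at h
      linarith
    obtain ⟨w, hw⟩ := ih x' y hn
    exact ⟨SimpleGraph.Walk.cons hadj w, by rw [SimpleGraph.Walk.length_cons, hw]⟩

theorem exists_walk' (x y : Fin d → ℤ) : ∃ w : (lattice d).Walk x y, (w.length : ℤ) = n1 (y - x) := by
  obtain ⟨w, hw⟩ := exists_walk (n1 (y - x)).toNat x y (by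
    rw [Int.toNat_of_nonneg (n1_nonneg _)])
  refine ⟨w, ?_⟩
  rw [hw, Int.toNat_of_nonneg (n1_nonneg _)]

instance (x y : Fin d → ℤ) : Nonempty ((lattice d).Walk x y) := ⟨(exists_walk' x y).choose⟩

instance (x y : Fin d → ℤ) : Countable ((lattice d).Walk x y) :=
  Function.Injective.countable (f := fun w : (lattice d).Walk x y => w.support)
    fun _ _ h => SimpleGraph.Walk.ext_support h

theorem T_le {τ : Sym2 (Fin d → ℤ) → ℝ} (hτ : ∀ e, 0 ≤ τ e) {x y : Fin d → ℤ}
    (w : (lattice d).Walk x y) : T τ x y ≤ passage τ w := ciInf_le (bdd hτ x y) w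

theorem T_nonneg {τ : Sym2 (Fin d → ℤ) → ℝ} (hτ : ∀ e, 0 ≤ τ e) (x y : Fin d → ℤ) : 0 ≤ T τ x y :=
  le_ciInf fun w => passage_nonneg hτ w

theorem T_ge {τ : Sym2 (Fin d → ℤ) → ℝ} {l : ℝ} (hl : 0 ≤ l) (hτ : ∀ e, l ≤ τ e) (x y : Fin d → ℤ) :
    l * (n1 (y - x) : ℝ) ≤ T τ x y := by
  refine le_ciInf fun w => ?_
  refine le_trans ?_ (passage_ge hτ w)
  refine mul_le_mul_of_nonneg_left ?_ hl
  exact_mod_cast length_ge w

theorem T_triangle {τ : Sym2 (Fin d → ℤ) → ℝ} (hτ : ∀ e, 0 ≤ τ e) (x y z : Fin d → ℤ) :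
    T τ x z ≤ T τ x y + T τ y z := by
  refine le_ciInf_add_ciInf fun w w' => ?_
  rw [← passage_append]
  exact T_le hτ _

theorem measurable_passage {x y : Fin d → ℤ} (w : (lattice d).Walk x y) :
    Measurable fun τ : Sym2 (Fin d → ℤ) → ℝ => passage τ w := by
  induction w with
  | nil => simp only [passage_nil]; exact measurable_const
  | cons h w ih =>
    simp only [passage_cons]
    exact (measurable_pi_apply _).add ih

theorem measurable_T (x y : Fin d → ℤ) : Measurable fun τ : Sym2 (Fin d → ℤ) → ℝ => T τ x y :=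
  Measurable.iInf fun w => measurable_passage w

/-! ### Automorphisms -/

theorem passage_map (τ : Sym2 (Fin d → ℤ) → ℝ) (f : lattice d ≃g lattice d) {x y : Fin d → ℤ}
    (w : (lattice d).Walk x y) :
    passage τ (w.map f.toHom) = passage (fun e => τ (e.map f)) w := by
  induction w with
  | nil => rfl
  | cons h w ih =>
    rw [SimpleGraph.Walk.map_cons, passage_cons, passage_cons, ih]
    rfl

theorem T_map_le {τ : Sym2 (Fin d → ℤ) → ℝ} (hτ : ∀ e, 0 ≤ τ e) (f : lattice d ≃g lattice d)
    (x y : Fin d → ℤ) : T τ (f x) (f y) ≤ T (fun e => τ (e.map f)) x y := by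
  refine le_ciInf fun w => ?_
  rw [← passage_map]
  exact T_le hτ _

theorem T_map {τ : Sym2 (Fin d → ℤ) → ℝ} (hτ : ∀ e, 0 ≤ τ e) (f : lattice d ≃g lattice d)
    (x y : Fin d → ℤ) : T τ (f x) (f y) = T (fun e => τ (e.map f)) x y := by
  refine le_antisymm (T_map_le hτ f x y) ?_
  have h := T_map_le (τ := fun e => τ (e.map f)) (fun e => hτ _) f.symm (f x) (f y)
  have h1 : (fun e : Sym2 (Fin d → ℤ) => τ ((e.map f.symm).map f)) = τ := by
    funext e
    rw [Sym2.map_map]
    have : (⇑f ∘ ⇑f.symm) = id := by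
      funext z
      simp
    rw [this, Sym2.map_id]; rfl
  simp only [h1] at h
  simpa using h

end Pool.Agent.Lib.MP_a83deb_pr
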